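import Pool.Agent.Work.MP_a98e4e_ag.Fu.CF.Defs
import Pool.Agent.Work.MP_a98e4e_ag.Fu.Six.Clifford
import Pool.Agent.Work.MP_a98e4e_ag.Fu.Core.KFacts

section

/-! # CF4, part c: the Clifford structure on the core -/

set_option autoImplicit false

open Module

namespace LicciCF

namespace Core4

variable {k C B : Type*} [Field k] [CharZero k] [AddCommGroup C] [Module k C]
  [FiniteDimensional k C] [AddCommGroup B]
  [Module k B] {ι : Type*} [Fintype ι] {e : Basis ι k C} (Q : Core4 k C B e)

/-- equation (6) -/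
theorem eq6 (hcard : Fintype.card ι = 12)
    (hst : ∀ x u, u ∈ LinearMap.range Q.δ → Q.a x u ∈ LinearMap.range Q.δ)
    {w u z : C} (hw : Q.θ w = 0) (hu : Q.θ u = 0) (hz : Q.θ z = 0) :
    (Q.K u w - Q.K u (Q.J w)) • z + (10 : k) • Q.ad (Q.ad w u) z =
      (2 * Q.K u z) • w - (Q.K w z + Q.K w (Q.J z)) • u + (10 : k) • Q.ad u (Q.ad w z) := by
  obtain ⟨η, hη⟩ := hst w _ (LinearMap.mem_range_self Q.δ (Q.K u))
  -- the scalar part of `η`
  have hKJε : ∀ y, ((Q.K y) ∘ₗ Q.J) Q.ε = 0 := by
    intro y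
    rw [LinearMap.comp_apply, Q.Jε, map_zero]
  have hlam : η Q.ε = Q.K u w - Q.K u (Q.J w) := by
    have h1 := Q.hC hw (Q.δ (Q.K u))
    rw [Q.hD, map_add, Q.hA_all w (Q.K u), Q.hA_all w ((Q.K u) ∘ₗ Q.J), hKJε, Q.Kε, hw, ← hη,
      Q.hD] at h1
    simp only [zero_smul, sub_zero, zero_add] at h1
    have h2 : Q.δ (η + η ∘ₗ Q.J) = Q.δ ((2 : k) • (Q.K u w • Q.θ - (Q.K u) ∘ₗ Q.ad w) -
        ((Q.K u w • Q.θ - (Q.K u) ∘ₗ Q.ad w) + (((Q.K u) ∘ₗ Q.J) w • Q.θ -
          ((Q.K u) ∘ₗ Q.J) ∘ₗ Q.ad w))) := by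
      simp only [map_add, map_sub, map_smul, Q.δθ]
      exact h1
    have h3 := congrArg (fun g : Dual k C => g Q.ε) (Q.inj h2)
    simp only [LinearMap.add_apply, LinearMap.sub_apply, LinearMap.smul_apply,
      LinearMap.comp_apply, Q.Jε, Q.ad_ε, Q.θε, map_zero, smul_eq_mul, mul_one, add_zero,
      sub_zero] at h3
    rw [h3]
    ring
  obtain ⟨h, hh, hKh⟩ := Q.K_surj hcard (f := η - η Q.ε • Q.θ) (by
    rw [LinearMap.sub_apply, LinearMap.smul_apply, Q.θε, smul_eq_mul, mul_one, sub_self])
  have hηe : η = η Q.ε • Q.θ + Q.K h := by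
    rw [hKh]
    abel
  -- the functional equation
  have hfun : ∀ g : Dual k C, g Q.ε = 0 →
      (2 * g w) • Q.K u - g u • (Q.K w + (Q.K w) ∘ₗ Q.J) - (10 * g (Q.ad u w)) • Q.θ +
        (10 : k) • (g ∘ₗ Q.ad u ∘ₗ Q.ad w) =
      η Q.ε • g + (10 * g h) • Q.θ + (10 : k) • (g ∘ₗ Q.ad h) := by
    intro g hg
    have h1 := Q.h1 w g (Q.δ (Q.K u))
    rw [hg, mul_zero, zero_smul, add_zero, Q.h5 hcard hu hg, map_smul, map_add, map_smul,
      Q.hA_all w (g ∘ₗ Q.ad u), hw, ← hη] at h1
    have hg0 : (g ∘ₗ Q.ad u) Q.ε = 0 := by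
      rw [LinearMap.comp_apply, Q.ad_ε, map_zero]
    rw [hg0] at h1
    have h2 : (10 : k) • Q.a' w Q.v = Q.δ (Q.K w) + Q.δ ((Q.K w) ∘ₗ Q.J) := by
      rw [← Q.a'v hw, ← map_smul, Q.h4 hcard hw, Q.hD]
    have h3 : Q.b g (Q.δ η) = η Q.ε • Q.δ g + (10 : k) • (g h • Q.v + Q.δ (g ∘ₗ Q.ad h)) := by
      conv_lhs => rw [hηe]
      rw [map_add, map_add, map_smul, map_smul, Q.δθ, ← Q.hδ, Q.h5 hcard hh hg]
    rw [h3] at h1
    have h4 : (10 : k) • (g u • Q.a' w Q.v + ((0 : k) • Q.a' w Q.v + (g ∘ₗ Q.ad u) w • Q.v -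
        (0 : k) • Q.δ (g ∘ₗ Q.ad u) - Q.δ ((g ∘ₗ Q.ad u) ∘ₗ Q.ad w))) =
        g u • (Q.δ (Q.K w) + Q.δ ((Q.K w) ∘ₗ Q.J)) + (10 : k) • ((g (Q.ad u w)) • Q.v -
          Q.δ (g ∘ₗ Q.ad u ∘ₗ Q.ad w)) := by
      rw [← h2, LinearMap.comp_assoc, LinearMap.comp_apply]
      module
    rw [h4] at h1
    apply Q.inj
    simp only [map_add, map_sub, map_smul, Q.δθ]
    have h5 : η Q.ε • Q.δ g + (10 : k) • (g h • Q.v + Q.δ (g ∘ₗ Q.ad h)) =
        (2 * g w) • Q.δ (Q.K u) - (g u • (Q.δ (Q.K w) + Q.δ ((Q.K w) ∘ₗ Q.J)) +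
          (10 : k) • ((g (Q.ad u w)) • Q.v - Q.δ (g ∘ₗ Q.ad u ∘ₗ Q.ad w))) := by
      rw [← h1]
      abel
    have h6 : η Q.ε • Q.δ g + (10 * g h) • Q.v + (10 : k) • Q.δ (g ∘ₗ Q.ad h) =
        η Q.ε • Q.δ g + (10 : k) • (g h • Q.v + Q.δ (g ∘ₗ Q.ad h)) := by
      module
    rw [h6, h5]
    module
  -- identification of `h`
  have hhe : h = Q.ad w u := by
    have h10 : (10 : k) ≠ 0 := by norm_num
    have h0 : h - Q.ad w u = 0 := by
      refine Q.eq_zero_of (by rw [map_sub, hh, Q.θad, sub_zero]) fun g hg => ?_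
      have h1 := congrArg (fun f : Dual k C => f Q.ε) (hfun g hg)
      simp only [LinearMap.add_apply, LinearMap.sub_apply, LinearMap.smul_apply,
        LinearMap.comp_apply, Q.Jε, Q.ad_ε, Q.θε, Q.Kε, hg, map_zero, smul_eq_mul, mul_one,
        mul_zero, add_zero, sub_zero, zero_sub, zero_add] at h1
      have h2 : (10 : k) * (g h + g (Q.ad u w)) = 0 := by
        linear_combination -h1
      have h3 := (mul_eq_zero.1 h2).resolve_left h10
      rw [map_sub, Q.ad_anti w u, map_neg, sub_neg_eq_add]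
      exact h3
    exact sub_eq_zero.1 h0
  -- evaluation at `z`
  rw [← sub_eq_zero]
  refine Q.eq_zero_of ?_ fun g hg => ?_
  · simp only [map_add, map_sub, map_smul, Q.θad, hz, hw, hu, smul_zero, add_zero, sub_zero]
  · have h1 := congrArg (fun f : Dual k C => f z) (hfun g hg)
    simp only [LinearMap.add_apply, LinearMap.sub_apply, LinearMap.smul_apply,
      LinearMap.comp_apply, hz, smul_eq_mul, mul_zero, add_zero, sub_zero] at h1
    rw [hhe, hlam] at h1
    simp only [map_add, map_sub, map_smul, smul_eq_mul]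
    linear_combination -h1

/-- `K(w, J w) = 0` -/
theorem KJ (hcard : Fintype.card ι = 12)
    (hst : ∀ x u, u ∈ LinearMap.range Q.δ → Q.a x u ∈ LinearMap.range Q.δ)
    {w : C} (hw : Q.θ w = 0) : Q.K w (Q.J w) = 0 := by
  have hK : ∀ u, Q.K (u - Q.θ u • Q.ε) = Q.K u := by
    intro u
    rw [map_sub, map_smul, Q.K_ε, smul_zero, sub_zero]
  have hop : (Q.K.flip w - Q.K.flip (Q.J w)).smulRight w - (10 : k) • (Q.ad w ∘ₗ Q.ad w) =
      (2 : k) • (Q.K.flip w).smulRight w -
        (Q.K w w + Q.K w (Q.J w)) • (LinearMap.id - Q.θ.smulRight Q.ε) := by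
    apply LinearMap.ext
    intro u
    have hu : Q.θ (u - Q.θ u • Q.ε) = 0 := by
      rw [map_sub, map_smul, Q.θε, smul_eq_mul, mul_one, sub_self]
    have h := Q.eq6 hcard hst hw hu hw
    rw [Q.ad_self w, map_zero, smul_zero, add_zero, hK, map_sub, map_smul, Q.ad_ε, smul_zero,
      sub_zero, Q.ad_anti (Q.ad w u) w] at h
    simp only [LinearMap.sub_apply, LinearMap.smul_apply, LinearMap.smulRight_apply,
      LinearMap.flip_apply, LinearMap.comp_apply, LinearMap.id_apply]
    rw [smul_neg, ← sub_eq_add_neg] at h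
    rw [h, smul_smul]
  have ht := congrArg (LinearMap.trace k C) hop
  simp only [map_sub, map_smul, LinearMap.trace_smulRight, LinearMap.trace_id,
    LinearMap.sub_apply, LinearMap.flip_apply, smul_eq_mul] at ht
  have hn : finrank k C = 12 := by
    rw [finrank_eq_card_basis e, hcard]
  rw [← Q.K_apply w w, hn, Q.θε] at ht
  push_cast at ht
  have h10 : (10 : k) * Q.K w (Q.J w) = 0 := by
    rw [Q.K_symm w (Q.J w)] at ht ⊢
    linear_combination ht
  exact (mul_eq_zero.1 h10).resolve_left (by norm_num)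

/-- equation (7) -/
theorem eq7 (hcard : Fintype.card ι = 12)
    (hst : ∀ x u, u ∈ LinearMap.range Q.δ → Q.a x u ∈ LinearMap.range Q.δ)
    {w : C} (hw : Q.θ w = 0) {u : C} (hu : Q.θ u = 0) :
    (10 : k) • Q.ad w (Q.ad w u) = Q.K w w • u - (Q.K u w + Q.K u (Q.J w)) • w := by
  have h := Q.eq6 hcard hst hw hu hw
  rw [Q.ad_self w, map_zero, smul_zero, add_zero, Q.KJ hcard hst hw, add_zero,
    Q.ad_anti (Q.ad w u) w, smul_neg] at h
  have h2 : (10 : k) • Q.ad w (Q.ad w u) = (Q.K u w - Q.K u (Q.J w)) • w -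
      ((2 * Q.K u w) • w - Q.K w w • u) := by
    rw [← h]
    abel
  rw [h2]
  module

/-- equation (8) -/
theorem eq8 (hcard : Fintype.card ι = 12)
    (hst : ∀ x u, u ∈ LinearMap.range Q.δ → Q.a x u ∈ LinearMap.range Q.δ)
    {w : C} (hw : Q.θ w = 0) {u : C} (hu : Q.θ u = 0) :
    Q.K (Q.ad w u) w + Q.K (Q.ad w u) (Q.J w) = 0 := by
  by_cases hw0 : w = 0
  · rw [hw0]
    simp
  have h1 := Q.eq7 hcard hst hw (Q.θad w u)
  have h2 := congrArg (Q.ad w) (Q.eq7 hcard hst hw hu)
  rw [map_smul, map_sub, map_smul, map_smul, Q.ad_self, smul_zero, sub_zero, h1] at h2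
  have h3 : (Q.K (Q.ad w u) w + Q.K (Q.ad w u) (Q.J w)) • w = 0 := by
    have : (Q.K (Q.ad w u) w + Q.K (Q.ad w u) (Q.J w)) • w =
        Q.K w w • Q.ad w u - (Q.K w w • Q.ad w u -
          (Q.K (Q.ad w u) w + Q.K (Q.ad w u) (Q.J w)) • w) := by abel
    rw [this, h2, sub_self]
  exact (smul_eq_zero.1 h3).resolve_right hw0

/-- the operators `T_w` -/
noncomputable def Tw : C →ₗ[k] (C →ₗ[k] C) :=
  LinearMap.mk₂ k (fun w z => Q.ad w z + Q.θ z • w + ((10 : k)⁻¹ * (Q.K w z + Q.K z (Q.J w))) • Q.ε)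
    (fun w w' z => by
      simp only [map_add, LinearMap.add_apply]
      module)
    (fun c w z => by
      simp only [map_smul, LinearMap.smul_apply, smul_eq_mul]
      module)
    (fun w z z' => by
      simp only [map_add, LinearMap.add_apply]
      module)
    (fun c w z => by
      simp only [map_smul, LinearMap.smul_apply, smul_eq_mul]
      module)

theorem Tw_apply (w z : C) : Q.Tw w z = Q.ad w z + Q.θ z • w +
    ((10 : k)⁻¹ * (Q.K w z + Q.K z (Q.J w))) • Q.ε := rfl

theorem Tw_sq (hcard : Fintype.card ι = 12)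
    (hst : ∀ x u, u ∈ LinearMap.range Q.δ → Q.a x u ∈ LinearMap.range Q.δ)
    {w : C} (hw : Q.θ w = 0) (z : C) : Q.Tw w (Q.Tw w z) = ((10 : k)⁻¹ * Q.K w w) • z := by
  have h10 : (10 : k) ≠ 0 := by norm_num
  set z' := z - Q.θ z • Q.ε with hz'
  have hz0 : Q.θ z' = 0 := by
    rw [hz', map_sub, map_smul, Q.θε, smul_eq_mul, mul_one, sub_self]
  have hadz : Q.ad w z = Q.ad w z' := by
    rw [hz', map_sub, map_smul, Q.ad_ε, smul_zero, sub_zero]
  have hKz : Q.K z' = Q.K z := by
    rw [hz', map_sub, map_smul, Q.K_ε, smul_zero, sub_zero]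
  have e7 := Q.eq7 hcard hst hw hz0
  have e8 := Q.eq8 hcard hst hw hz0
  rw [← hadz] at e7 e8
  rw [hKz] at e7
  have e7' : Q.ad w (Q.ad w z) = (10 : k)⁻¹ • (Q.K w w • z' - (Q.K z w + Q.K z (Q.J w)) • w) := by
    rw [← e7, smul_smul, inv_mul_cancel₀ h10, one_smul]
  rw [Tw_apply, Tw_apply]
  simp only [map_add, map_smul, LinearMap.add_apply, LinearMap.smul_apply, Q.ad_self, Q.ad_ε,
    Q.θad, hw, Q.θε, Q.Kε, Q.K_ε, smul_zero, smul_eq_mul, mul_zero, mul_one,
    add_zero, zero_add]
  rw [Q.KJ hcard hst hw, e7', hz', mul_zero, add_zero, Q.K_symm w (Q.ad w z), Q.K_symm w z]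
  have e9 : Q.K (Q.ad w z) w + Q.θ z * Q.K w w + Q.K (Q.ad w z) (Q.J w) = Q.θ z * Q.K w w := by
    linear_combination e8
  rw [e9]
  module

/-- The conclusion of CF4 for a core. -/
theorem exists_W (hcard : Fintype.card ι = 12)
    (hst : ∀ x u, u ∈ LinearMap.range Q.δ → Q.a x u ∈ LinearMap.range Q.δ) :
    ∃ (W : Submodule k C) (K : W →ₗ[k] W →ₗ[k] k) (Tw : W →ₗ[k] (C →ₗ[k] C)),
      finrank k W = 11 ∧ (∀ w, (∀ w', K w w' = 0) → w = 0) ∧
      (∀ w w', K w w' = K w' w) ∧ ∀ w, Tw w ∘ₗ Tw w = K w w • LinearMap.id := by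
  have h10 : (10 : k)⁻¹ ≠ 0 := by norm_num
  refine ⟨LinearMap.ker Q.θ, (10 : k)⁻¹ • (Q.K.domRestrict₁₂ (LinearMap.ker Q.θ) (LinearMap.ker Q.θ)),
    Q.Tw ∘ₗ (LinearMap.ker Q.θ).subtype, ?_, ?_, ?_, ?_⟩
  · have h1 := LinearMap.finrank_range_add_finrank_ker Q.θ
    have h2 : LinearMap.range Q.θ = ⊤ := by
      rw [LinearMap.range_eq_top]
      intro c
      exact ⟨c • Q.ε, by rw [map_smul, Q.θε, smul_eq_mul, mul_one]⟩
    rw [h2, finrank_top, finrank_self, finrank_eq_card_basis e, hcard] at h1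
    omega
  · rintro ⟨w, hw⟩ h
    have hw' : Q.θ w = 0 := hw
    have h1 : Q.K w = 0 := by
      apply LinearMap.ext
      intro y
      have h2 := h ⟨y - Q.θ y • Q.ε, by
        rw [LinearMap.mem_ker, map_sub, map_smul, Q.θε, smul_eq_mul, mul_one, sub_self]⟩
      simp only [LinearMap.smul_apply, LinearMap.domRestrict₁₂_apply, smul_eq_mul, map_sub,
        map_smul, Q.Kε, mul_zero, sub_zero] at h2
      exact (mul_eq_zero.1 h2).resolve_left h10
    exact Subtype.ext (Q.K_nondeg hcard hw' h1)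
  · intro w w'
    simp only [LinearMap.smul_apply, LinearMap.domRestrict₁₂_apply]
    rw [Q.K_symm]
  · rintro ⟨w, hw⟩
    apply LinearMap.ext
    intro z
    exact Q.Tw_sq hcard hst (w := w) hw z

end Core4

end LicciCF

end

section

/-! # CF4, part d: from a package to a core -/

set_option autoImplicit false

open Module

namespace LicciCF

section Rank

variable {k : Type*} [Field k] [CharZero k] {ι : Type*} [Fintype ι]

/-- the rank of the block operator -/
theorem Blk_rank {V : Type*} [AddCommGroup V] [Module k V] [FiniteDimensional k V]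
    (Rr : ι → ι → (V →ₗ[k] V)) (h1 : ∀ i l u, ∑ j, Rr j l (Rr i j u) = (12 : k) • Rr i l u)
    (h2 : ∀ u, ∑ i, Rr i i u = (12 : k) • u) :
    finrank k (LinearMap.range (Blk Rr)) = finrank k V := by
  apply idem_rank
  · intro u
    funext l
    rw [Blk_apply, Pi.smul_apply, Blk_apply, Finset.smul_sum]
    simp only [Blk_apply, map_sum]
    rw [Finset.sum_comm]
    exact Finset.sum_congr rfl fun i _ => h1 i l _
  · rw [trace_Blk, ← map_sum]
    have : ∑ i, Rr i i = (12 : k) • LinearMap.id := by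
      apply LinearMap.ext
      intro u
      rw [LinearMap.sum_apply, h2, LinearMap.smul_apply, LinearMap.id_apply]
    rw [this, map_smul, LinearMap.trace_id, smul_eq_mul]

end Rank

namespace Dat

variable {k C B : Type*} [Field k] [CharZero k] [AddCommGroup C] [Module k C] [AddCommGroup B]
  [Module k B] [FiniteDimensional k C] [FiniteDimensional k B] (P : Dat k C B)

/-- `R` as a bilinear map -/
noncomputable def Rl : C →ₗ[k] Dual k C →ₗ[k] (B →ₗ[k] B) :=
  LinearMap.mk₂ k P.R
    (fun x x' ξ => by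
      simp only [R, map_add, LinearMap.add_apply]
      module)
    (fun c x ξ => by
      simp only [R, map_smul, LinearMap.smul_apply, smul_eq_mul]
      module)
    (fun x ξ ξ' => by
      simp only [R, map_add, LinearMap.add_apply]
      module)
    (fun c x ξ => by
      simp only [R, map_smul, LinearMap.smul_apply, smul_eq_mul]
      module)

theorem Rl_apply (x : C) (ξ : Dual k C) : P.Rl x ξ = P.R x ξ := rfl

theorem R_ap4 (x : C) (ξ : Dual k C) (u : B) : P.R x ξ u = ξ x • u + P.σ x ξ u := rfl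

variable {P}

theorem R_inj {ι : Type} [Fintype ι] (e : Basis ι k C) (hP : P.IsPkg)
    (hR : ∀ u : B, ∑ i, P.R (e i) (e.coord i) u = (12 : k) • u) {ε : C} (hε : P.IsEps ε)
    {w : B} (hw : ∀ ξ, P.R ε ξ w = 0) : w = 0 := by
  have h1 : ∀ (i l : ι) (u : B), ∑ j, P.R (e j) (e.coord l) (P.R (e i) (e.coord j) u) =
      (12 : k) • P.R (e i) (e.coord l) u := by
    intro i l u
    have h := congrArg (fun f : B →ₗ[k] B => f u) (hP.d1 ι e (e i) (e.coord l))
    simpa using h
  have hr := Blk_rank (fun i j => P.R (e i) (e.coord j)) h1 hR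
  let jj : B →ₗ[k] (ι → B) := LinearMap.pi (fun j => P.R ε (e.coord j))
  have hsub : LinearMap.range (Blk (fun i j => P.R (e i) (e.coord j))) ≤ LinearMap.range jj := by
    rintro _ ⟨u, rfl⟩
    choose w hw using fun i => hε.e3 (e i) (u i)
    refine ⟨∑ i, w i, ?_⟩
    funext l
    rw [Blk_apply]
    simp only [jj, LinearMap.pi_apply, map_sum]
    exact Finset.sum_congr rfl fun i _ => (hw i _).symm
  have h2 : finrank k (LinearMap.range jj) = finrank k B := by
    apply le_antisymm (LinearMap.finrank_range_le jj)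
    rw [← hr]
    exact Submodule.finrank_mono hsub
  have hinj := inj_of_onto jj h2
  apply hinj
  rw [map_zero]
  funext l
  exact hw _

/-- the map `a` -/
theorem exists_a {ι : Type} [Fintype ι] (e : Basis ι k C) (hP : P.IsPkg)
    (hR : ∀ u : B, ∑ i, P.R (e i) (e.coord i) u = (12 : k) • u) {ε : C} (hε : P.IsEps ε) :
    ∃ a : C →ₗ[k] End k B, ∀ x ξ u, P.R x ξ u = P.R ε ξ (a x u) := by
  have hker : LinearMap.ker ((P.Rl ε).flip) = ⊥ := by
    rw [LinearMap.ker_eq_bot']
    intro w hw
    refine R_inj e hP hR hε (w := w) fun ξ => ?_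
    have := congrArg (fun f : Dual k C →ₗ[k] B => f ξ) hw
    simpa [Rl_apply] using this
  obtain ⟨L, hL⟩ := LinearMap.exists_leftInverse_of_injective _ hker
  refine ⟨LinearMap.mk₂ k (fun x u => L ((P.Rl x).flip u)) ?_ ?_ ?_ ?_, ?_⟩
  · intro x x' u
    have : (P.Rl (x + x')).flip u = (P.Rl x).flip u + (P.Rl x').flip u := by
      apply LinearMap.ext
      intro ξ
      simp
    rw [this, map_add]
  · intro c x u
    have : (P.Rl (c • x)).flip u = c • (P.Rl x).flip u := by
      apply LinearMap.ext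
      intro ξ
      simp
    rw [this, map_smul]
  · intro x u u'
    rw [map_add, map_add]
  · intro c x u
    rw [map_smul, map_smul]
  · intro x ξ u
    obtain ⟨w, hw⟩ := hε.e3 x u
    have h1 : (P.Rl x).flip u = (P.Rl ε).flip w := by
      apply LinearMap.ext
      intro ξ
      simp only [LinearMap.flip_apply, Rl_apply]
      exact hw ξ
    rw [LinearMap.mk₂_apply, h1]
    have h2 : L ((P.Rl ε).flip w) = w := by
      have := congrArg (fun f : B →ₗ[k] B => f w) hL
      simpa using this
    rw [h2]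
    exact hw ξ

/-- the opposite of the adjoint -/
theorem exists_a' (hP : P.IsPkg) (a : C →ₗ[k] End k B) :
    ∃ a' : C →ₗ[k] End k B, ∀ x u w, P.ω (a' x u) w = -P.ω u (a x w) := by
  have hanti : ∀ u w, P.ω u w = -P.ω w u := by
    intro u w
    have h := hP.alt (u + w)
    simp only [map_add, LinearMap.add_apply, hP.alt, zero_add, add_zero] at h
    exact eq_neg_of_add_eq_zero_right h
  have hnd : LinearMap.BilinForm.Nondegenerate P.ω :=
    ⟨fun u hu => hP.nondeg u hu, fun u hu => hP.nondeg u fun w => by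
      rw [hanti, hu w, neg_zero]⟩
  let D := LinearMap.BilinForm.toDual P.ω hnd
  have hD : ∀ u w, D u w = P.ω u w := fun u w => rfl
  refine ⟨LinearMap.mk₂ k (fun x u => -D.symm ((D u) ∘ₗ (a x))) ?_ ?_ ?_ ?_, ?_⟩
  · intro x x' u
    rw [map_add, LinearMap.comp_add, map_add, neg_add]
  · intro c x u
    rw [map_smul, LinearMap.comp_smul, map_smul, smul_neg]
  · intro x u u'
    rw [map_add, LinearMap.add_comp, map_add, neg_add]
  · intro c x u
    rw [map_smul, LinearMap.smul_comp, map_smul, smul_neg]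
  · intro x u w
    rw [LinearMap.mk₂_apply, map_neg, LinearMap.neg_apply, ← hD, LinearEquiv.apply_symm_apply,
      LinearMap.comp_apply, hD]

/-- The bracket attached to `θ`. -/
theorem exists_br (hP : P.IsPkg) {ε : C} (hε : P.IsEps ε) {θ : Dual k C} (hθ : θ ε = 1) :
    ∃ br : C →ₗ[k] C →ₗ[k] C, (∀ x y, P.S x y = P.S ε (br x y)) ∧ (∀ x y, θ (br x y) = 0) ∧
      (∀ x, br x x = 0) ∧ (∀ y, br ε y = y - θ y • ε) := by
  let M : C →ₗ[k] (Dual k C →ₗ[k] C) × k := (P.S ε).prod θ
  have hM : ∀ y, M y = (P.S ε y, θ y) := fun y => rfl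
  have hker : LinearMap.ker M = ⊥ := by
    rw [LinearMap.ker_eq_bot']
    intro y hy
    rw [hM, Prod.mk_eq_zero] at hy
    obtain ⟨c, hc⟩ := hε.e1 y hy.1
    have h2 := hy.2
    rw [hc, map_smul, hθ, smul_eq_mul, mul_one] at h2
    rw [hc, h2, zero_smul]
  obtain ⟨L, hL⟩ := LinearMap.exists_leftInverse_of_injective _ hker
  have hLM : ∀ y, L (M y) = y := by
    intro y
    have := congrArg (fun f : C →ₗ[k] C => f y) hL
    simpa using this
  have hred : ∀ z, M (z - θ z • ε) = (P.S ε z, 0) := by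
    intro z
    rw [hM, map_sub, map_smul, hP.S_alt, smul_zero, sub_zero, map_sub, map_smul, hθ, smul_eq_mul,
      mul_one, sub_self]
  let g : (Dual k C →ₗ[k] C) →ₗ[k] C := L ∘ₗ LinearMap.inl k (Dual k C →ₗ[k] C) k
  have hg : ∀ f, g f = L (f, 0) := fun f => rfl
  refine ⟨LinearMap.mk₂ k (fun x y => g (P.S x y))
    (fun x x' y => by simp only [map_add, LinearMap.add_apply])
    (fun c x y => by simp only [map_smul, LinearMap.smul_apply])
    (fun x y y' => by simp only [map_add])
    (fun c x y => by simp only [map_smul]), ?_, ?_, ?_, ?_⟩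
  · intro x y
    obtain ⟨z, hz⟩ := hε.e2 x y
    rw [LinearMap.mk₂_apply, hg, hz, ← hred, hLM, map_sub, map_smul, hP.S_alt, smul_zero, sub_zero]
  · intro x y
    obtain ⟨z, hz⟩ := hε.e2 x y
    rw [LinearMap.mk₂_apply, hg, hz, ← hred, hLM, map_sub, map_smul, hθ, smul_eq_mul, mul_one,
      sub_self]
  · intro x
    rw [LinearMap.mk₂_apply, hP.S_alt, map_zero]
  · intro y
    rw [LinearMap.mk₂_apply, hg, ← hred, hLM]

/-- relation (dd) -/
theorem dd (hP : P.IsPkg) {δ : Dual k C →ₗ[k] B} {del : B →ₗ[k] C} (hd : P.IsDer δ del)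
    (x : C) (ξ η : Dual k C) :
    P.σ x ξ (δ η) + δ (η ∘ₗ P.T x ξ) = P.R x η (δ ξ) := by
  rw [← sub_eq_zero]
  apply hP.nondeg
  intro u
  have h1 := hd.dq x u ξ η
  have h2 := hd.adj (η ∘ₗ P.T x ξ) u
  have h3 := hd.adj ξ u
  have h4 : (η ∘ₗ P.T x ξ) (del u) = 2 * ξ (del u) * η x - ξ x * η (del u) -
      η (P.S x (del u) ξ) := by
    simp only [T, LinearMap.comp_apply, LinearMap.sub_apply, LinearMap.smul_apply,
      LinearMap.smulRight_apply, LinearMap.id_apply, LinearMap.flip_apply, map_sub, map_smul,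
      smul_eq_mul]
    ring
  simp only [R_ap4, map_sub, map_add, map_smul, LinearMap.sub_apply, LinearMap.add_apply,
    LinearMap.smul_apply, smul_eq_mul]
  linear_combination (-1 : k) * h2 + h4 - h1 + (η x) * h3

end Dat

end LicciCF

end

section

/-! # CF4, part e: assembly -/

set_option autoImplicit false

open Module

namespace LicciCF

namespace Dat

variable {k C B : Type*} [Field k] [CharZero k] [AddCommGroup C] [Module k C] [AddCommGroup B]
  [Module k B] [FiniteDimensional k C] [FiniteDimensional k B] {P : Dat k C B}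

theorem anti (hP : P.IsPkg) (u w : B) : P.ω u w = -P.ω w u := by
  have h := hP.alt (u + w)
  simp only [map_add, LinearMap.add_apply, hP.alt, zero_add, add_zero] at h
  exact eq_neg_of_add_eq_zero_right h

/-- `(1)` -/
theorem rel1 (hP : P.IsPkg) {ε : C} {a a' : C →ₗ[k] End k B}
    (ha : ∀ x ξ u, P.R x ξ u = P.R ε ξ (a x u)) (ha' : ∀ x u w, P.ω (a' x u) w = -P.ω u (a x w))
    (x : C) (ξ : Dual k C) (u : B) :
    a' x (P.R ε ξ u) + P.R ε ξ (a x u) = (2 * ξ x) • u + (2 * ξ ε) • a' x u := by
  rw [← sub_eq_zero]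
  apply hP.nondeg
  intro w
  have h1 := ha' x (P.R ε ξ u) w
  have h2 := ha' x u w
  have h3 := hP.sp ε ξ u (a x w)
  have h4 := hP.sp x ξ u w
  have h5 : P.ω u (P.R ε ξ (a x w)) = P.ω u (P.R x ξ w) := by rw [ha x ξ w]
  have h6 : P.ω (P.R ε ξ (a x u)) w = P.ω (P.R x ξ u) w := by rw [ha x ξ u]
  simp only [R_ap4, map_add, map_smul, LinearMap.add_apply, LinearMap.smul_apply,
    smul_eq_mul] at h1 h5 h6
  simp only [R_ap4, map_sub, map_add, map_smul, LinearMap.sub_apply, LinearMap.add_apply,
    LinearMap.smul_apply, smul_eq_mul]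
  linear_combination h1 + h6 - (2 * ξ ε) * h2 - h3 + h4 + h5

/-- `(3'')` -/
theorem rel3a (hP : P.IsPkg) {δ : Dual k C →ₗ[k] B} {del : B →ₗ[k] C} (hd : P.IsDer δ del)
    (x : C) (u : B) (ξ η : Dual k C) :
    η (P.S x (del u) ξ) = ξ (del (P.R x η u)) - η (del (P.R x ξ u)) := by
  have h1 := hd.dq x u ξ η
  have h2 := hP.sp x ξ (δ η) u
  have h3 := hP.sp x η (δ ξ) u
  have h4 := hd.adj η (P.σ x ξ u)
  have h5 := hd.adj ξ (P.σ x η u)
  simp only [R_ap4, map_add, map_smul, smul_eq_mul]
  linear_combination h1 + h2 - h3 + h4 - h5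

theorem rel3b (hP : P.IsPkg) {ε : C} {a : C →ₗ[k] End k B}
    (ha : ∀ x ξ u, P.R x ξ u = P.R ε ξ (a x u))
    {δ : Dual k C →ₗ[k] B} {del : B →ₗ[k] C} (hd : P.IsDer δ del) (x : C) (u : B) :
    P.S x (del u) = P.S ε (del (a x u)) := by
  apply LinearMap.ext
  intro ξ
  rw [← sub_eq_zero]
  refine (Module.forall_dual_apply_eq_zero_iff k _).1 fun η => ?_
  rw [map_sub, rel3a hP hd, rel3a hP hd, ha x η u, ha x ξ u, sub_self]

/-- `(3)` -/
theorem rel3 (hP : P.IsPkg) {ε : C} (hε : P.IsEps ε) {a a' : C →ₗ[k] End k B}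
    (ha : ∀ x ξ u, P.R x ξ u = P.R ε ξ (a x u)) (ha' : ∀ x u w, P.ω (a' x u) w = -P.ω u (a x w))
    {δ : Dual k C →ₗ[k] B} {del : B →ₗ[k] C} (hd : P.IsDer δ del)
    {br : C →ₗ[k] C →ₗ[k] C} (hbr : ∀ x y, P.S x y = P.S ε (br x y))
    (x : C) (ξ : Dual k C) (hξ : ξ ε = 0) : a' x (δ ξ) = -δ (ξ ∘ₗ br x) := by
  rw [← sub_eq_zero]
  apply hP.nondeg
  intro u
  have h1 := ha' x (δ ξ) u
  have h2 := hd.adj ξ (a x u)
  have h3 := hd.adj (ξ ∘ₗ br x) u
  obtain ⟨c, hc⟩ := hε.e1 (br x (del u) - del (a x u)) (by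
    rw [map_sub, ← hbr, rel3b hP ha hd, sub_self])
  have h4 : ξ (br x (del u)) = ξ (del (a x u)) := by
    have := congrArg ξ hc
    rw [map_sub, map_smul, hξ, smul_zero] at this
    exact sub_eq_zero.1 this
  rw [LinearMap.comp_apply] at h3
  simp only [map_sub, map_neg, LinearMap.sub_apply, LinearMap.neg_apply]
  linear_combination h1 + h2 - h3 + h4

/-- the functional `y ↦ tr (br y)` -/
noncomputable def tbr (br : C →ₗ[k] C →ₗ[k] C) : Dual k C := (LinearMap.trace k C) ∘ₗ br

theorem theta_step {ι : Type} [Fintype ι] (e : Basis ι k C) (hcard : Fintype.card ι = 12)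
    {ε : C} {a a' : C →ₗ[k] End k B} {b : Dual k C →ₗ[k] End k B}
    (h1 : ∀ (x : C) (ξ : Dual k C) (u : B),
      a' x (b ξ u) + b ξ (a x u) = (2 * ξ x) • u + (2 * ξ ε) • a' x u)
    (ha'ε : a' ε = -1) (h2 : ∀ u : B, ∑ i, b (e.coord i) (a (e i) u) = (12 : k) • u)
    {δ : Dual k C →ₗ[k] B} {v : B} (hδ : ∀ η, δ η = b η v) {θ : Dual k C} (hθ : θ ε = 1)
    {br : C →ₗ[k] C →ₗ[k] C} (hθbr : ∀ x y, θ (br x y) = 0) (hself : ∀ x, br x x = 0)
    (h3 : ∀ (x : C) (ξ : Dual k C), ξ ε = 0 → a' x (δ ξ) = -δ (ξ ∘ₗ br x)) :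
    δ (tbr br - θ) = (10 : k) • v := by
  have hanti : ∀ x y, br x y = -br y x := by
    intro x y
    have h := hself (x + y)
    simp only [map_add, LinearMap.add_apply, hself, zero_add, add_zero] at h
    exact eq_neg_of_add_eq_zero_right h
  have s1 : ∑ i, a' (e i) (δ (e.coord i)) - a' ε (δ θ) = δ (tbr br) := by
    have e1 : ∀ i, a' (e i) (δ (e.coord i)) = e.coord i ε • a' (e i) (δ θ) -
        δ ((e.coord i) ∘ₗ br (e i)) := by
      intro i
      have h := h3 (e i) (e.coord i - e.coord i ε • θ) (by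
        rw [LinearMap.sub_apply, LinearMap.smul_apply, hθ, smul_eq_mul, mul_one, sub_self])
      have h0 : (e.coord i - e.coord i ε • θ) ∘ₗ br (e i) = (e.coord i) ∘ₗ br (e i) := by
        apply LinearMap.ext
        intro y
        simp only [LinearMap.comp_apply, LinearMap.sub_apply, LinearMap.smul_apply, hθbr,
          smul_zero, sub_zero]
      rw [h0, map_sub, map_smul, map_sub, map_smul] at h
      rw [sub_eq_iff_eq_add] at h
      rw [h]
      abel
    rw [Finset.sum_congr rfl (fun i _ => e1 i), Finset.sum_sub_distrib]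
    have e2 : ∑ i, e.coord i ε • a' (e i) (δ θ) = a' ε (δ θ) := by
      have := sum_coord e (a'.flip (δ θ)) ε
      simpa only [LinearMap.flip_apply] using this
    have e3 : ∑ i, δ ((e.coord i) ∘ₗ br (e i)) = -δ (tbr br) := by
      rw [← map_sum, ← map_neg]
      congr 1
      apply LinearMap.ext
      intro z
      rw [LinearMap.sum_apply, LinearMap.neg_apply, tbr, LinearMap.comp_apply, tr_eq e,
        ← Finset.sum_neg_distrib]
      refine Finset.sum_congr rfl fun i _ => ?_
      rw [LinearMap.comp_apply, hanti (e i) z, map_neg]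
    rw [e2, e3]
    abel
  have s2 : ∑ i, a' (e i) (δ (e.coord i)) = (10 : k) • v := by
    have e1 : ∀ i, a' (e i) (δ (e.coord i)) = (2 : k) • v + (2 : k) • (e.coord i ε • a' (e i) v) -
        b (e.coord i) (a (e i) v) := by
      intro i
      have h := h1 (e i) (e.coord i) v
      have hii : e.coord i (e i) = 1 := by simp
      rw [hii, mul_one, ← hδ] at h
      rw [smul_smul, ← h]
      abel
    have f6 : ∑ i, e.coord i ε • a' (e i) v = -v := by
      have := sum_coord e (a'.flip v) ε
      simp only [LinearMap.flip_apply] at this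
      rw [this, ha'ε]
      rfl
    have f7 : ∑ i, (2 : k) • (e.coord i ε • a' (e i) v) = (2 : k) • -v := by
      rw [← Finset.smul_sum, f6]
    rw [Finset.sum_congr rfl (fun i _ => e1 i), Finset.sum_sub_distrib, Finset.sum_add_distrib, h2,
      f7, Finset.sum_const, Finset.card_univ, hcard]
    module
  rw [map_sub, ← s1, s2, ha'ε]
  simp only [LinearMap.neg_apply, Module.End.one_apply]
  abel

theorem exists_core (hP : P.IsPkg) {ε : C} (hε : P.IsEps ε) {ι : Type} [Fintype ι]
    (e : Basis ι k C) (hcard : Fintype.card ι = 12)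
    (htau : ∑ i, P.σ (e i) (e.coord i) = 0)
    (hT : ∑ i, P.T (e i) (e.coord i) = (12 : k) • LinearMap.id)
    {δ : Dual k C →ₗ[k] B} {del : B →ₗ[k] C} (hd : P.IsDer δ del)
    (hinj : Function.Injective δ) :
    ∃ Q : Core4 k C B e, Q.δ = δ ∧ Q.ε = ε ∧ (∀ ξ, Q.b ξ = P.R ε ξ) ∧
      ∀ x ξ u, P.R x ξ u = P.R ε ξ (Q.a x u) := by
  have h12 : (12 : k) ≠ 0 := by norm_num
  have h10 : (10 : k) ≠ 0 := by norm_num
  have hn : finrank k C = 12 := by rw [finrank_eq_card_basis e, hcard]
  have hR : ∀ u : B, ∑ i, P.R (e i) (e.coord i) u = (12 : k) • u := by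
    intro u
    have h1 : ∀ i, P.R (e i) (e.coord i) u = u + P.σ (e i) (e.coord i) u := by
      intro i
      rw [R_ap4]
      simp
    rw [Finset.sum_congr rfl (fun i _ => h1 i), Finset.sum_add_distrib, Finset.sum_const,
      Finset.card_univ, hcard, ← LinearMap.sum_apply, htau, LinearMap.zero_apply, add_zero]
    module
  obtain ⟨a, ha⟩ := exists_a e hP hR hε
  obtain ⟨a', ha'⟩ := exists_a' hP a
  let b : Dual k C →ₗ[k] End k B := P.Rl ε
  have hb : ∀ ξ u, b ξ u = P.R ε ξ u := fun ξ u => rfl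
  have h1 : ∀ (x : C) (ξ : Dual k C) (u : B),
      a' x (b ξ u) + b ξ (a x u) = (2 * ξ x) • u + (2 * ξ ε) • a' x u :=
    fun x ξ u => rel1 hP ha ha' x ξ u
  have haε : a ε = 1 := by
    apply LinearMap.ext
    intro u
    rw [Module.End.one_apply, ← sub_eq_zero]
    refine R_inj e hP hR hε fun ξ => ?_
    rw [map_sub, ← ha, sub_self]
  have ha'ε : a' ε = -1 := by
    apply LinearMap.ext
    intro u
    rw [← sub_eq_zero]
    apply hP.nondeg
    intro w
    rw [map_sub, LinearMap.sub_apply, ha', haε]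
    simp
  have h2 : ∀ u : B, ∑ i, b (e.coord i) (a (e i) u) = (12 : k) • u := by
    intro u
    rw [← hR u]
    exact Finset.sum_congr rfl fun i _ => (ha (e i) (e.coord i) u).symm
  -- the vector `v`
  set v : B := (12 : k)⁻¹ • ∑ i, a (e i) (δ (e.coord i)) with hv
  have hδ : ∀ η, δ η = b η v := by
    intro η
    have h3 : ∑ i, (P.σ (e i) (e.coord i) (δ η) + δ (η ∘ₗ P.T (e i) (e.coord i))) =
        ∑ i, P.R (e i) η (δ (e.coord i)) := Finset.sum_congr rfl fun i _ => dd hP hd _ _ _
    rw [Finset.sum_add_distrib, ← LinearMap.sum_apply, htau, LinearMap.zero_apply, zero_add,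
      ← map_sum] at h3
    have h4 : ∑ i, η ∘ₗ P.T (e i) (e.coord i) = (12 : k) • η := by
      apply LinearMap.ext
      intro y
      rw [LinearMap.sum_apply]
      simp only [LinearMap.comp_apply]
      rw [← map_sum, ← LinearMap.sum_apply, hT]
      simp
    rw [h4, map_smul] at h3
    have h5 : ∑ i, P.R (e i) η (δ (e.coord i)) = b η (∑ i, a (e i) (δ (e.coord i))) := by
      rw [map_sum]
      exact Finset.sum_congr rfl fun i _ => ha (e i) η (δ (e.coord i))
    rw [h5] at h3
    rw [hv, map_smul, ← h3, smul_smul, inv_mul_cancel₀ h12, one_smul]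
  -- the functional `θ`
  obtain ⟨θ₀, hθ₀⟩ : ∃ θ₀ : Dual k C, θ₀ ε = 1 := by
    obtain ⟨f, hf⟩ : ∃ f : Dual k C, f ε ≠ 0 := by
      by_contra hcon
      push Not at hcon
      exact hε.ne ((Module.forall_dual_apply_eq_zero_iff k ε).1 hcon)
    exact ⟨(f ε)⁻¹ • f, by rw [LinearMap.smul_apply, smul_eq_mul, inv_mul_cancel₀ hf]⟩
  have htr : ∀ (θ : Dual k C), θ ε = 1 → ∀ br : C →ₗ[k] C →ₗ[k] C, (∀ y, br ε y = y - θ y • ε) →
      tbr br ε = 11 := by
    intro θ hθ br hbr
    have : br ε = LinearMap.id - θ.smulRight ε := by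
      apply LinearMap.ext
      intro y
      rw [hbr]
      simp
    rw [tbr, LinearMap.comp_apply, this, map_sub, LinearMap.trace_id, LinearMap.trace_smulRight,
      hθ, hn]
    norm_num
  obtain ⟨br₀, hb01, hb02, hb03, hb04⟩ := exists_br hP hε hθ₀
  have hs0 := theta_step e hcard h1 ha'ε h2 hδ hθ₀ hb02 hb03
    (fun x ξ hξ => rel3 hP hε ha ha' hd hb01 x ξ hξ)
  set θ : Dual k C := (10 : k)⁻¹ • (tbr br₀ - θ₀) with hθdef
  have hθε : θ ε = 1 := by
    rw [hθdef, LinearMap.smul_apply, LinearMap.sub_apply, htr θ₀ hθ₀ br₀ hb04, hθ₀, smul_eq_mul]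
    norm_num
  have hδθ : δ θ = v := by
    rw [hθdef, map_smul, hs0, smul_smul, inv_mul_cancel₀ h10, one_smul]
  obtain ⟨br, hb1, hb2, hb3, hb4⟩ := exists_br hP hε hθε
  have h3 := fun x ξ hξ => rel3 hP hε ha ha' hd hb1 x ξ hξ
  have hs1 := theta_step e hcard h1 ha'ε h2 hδ hθε hb2 hb3 h3
  have ht11 : tbr br = (11 : k) • θ := by
    have : tbr br - θ = (10 : k) • θ := by
      apply hinj
      rw [hs1, map_smul, hδθ]
    rw [sub_eq_iff_eq_add] at this
    rw [this]
    module
  let ad : C →ₗ[k] C →ₗ[k] C := LinearMap.mk₂ k (fun x y => br x y - θ x • y + θ y • x)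
    (fun x x' y => by simp only [map_add, LinearMap.add_apply]; module)
    (fun c x y => by simp only [map_smul, LinearMap.smul_apply, smul_eq_mul]; module)
    (fun x y y' => by simp only [map_add]; module)
    (fun c x y => by simp only [map_smul, smul_eq_mul]; module)
  have had : ∀ x y, ad x y = br x y - θ x • y + θ y • x := fun x y => rfl
  let J : C →ₗ[k] C := LinearMap.id - P.T ε θ
  have hJ : ∀ y, J y = y - (2 * θ y) • ε + y + P.S ε y θ := by
    intro y
    simp only [J, T, LinearMap.sub_apply, LinearMap.smul_apply, LinearMap.smulRight_apply,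
      LinearMap.id_apply, LinearMap.flip_apply, hθε]
    module
  refine ⟨⟨a, a', b, δ, v, ε, θ, ad, J, h1, haε, ha'ε, h2, hδ, hinj, hθε, hδθ, ?_, ?_, ?_, ?_, ?_,
    ?_, ?_, ?_⟩, rfl, rfl, fun ξ => rfl, ha⟩
  · intro x
    rw [had, hb3]
    module
  · intro x y
    rw [had, map_add, map_sub, hb2, map_smul, map_smul, smul_eq_mul, smul_eq_mul]
    ring
  · apply LinearMap.ext
    intro y
    rw [had, hb4, hθε, LinearMap.zero_apply]
    module
  · intro x
    have : ad x = br x - θ x • LinearMap.id + θ.smulRight x := by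
      apply LinearMap.ext
      intro y
      rw [had]
      simp
    rw [this, map_add, map_sub, map_smul, LinearMap.trace_id, LinearMap.trace_smulRight, hn]
    have h4 : LinearMap.trace k C (br x) = 11 * θ x := by
      have := congrArg (fun f : Dual k C => f x) ht11
      simpa [tbr] using this
    rw [h4, smul_eq_mul]
    norm_num
    ring
  · intro x f hf
    have h4 : f ∘ₗ br x = f ∘ₗ ad x + θ x • f - f x • θ := by
      apply LinearMap.ext
      intro y
      simp only [LinearMap.comp_apply, LinearMap.add_apply, LinearMap.sub_apply,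
        LinearMap.smul_apply, smul_eq_mul, had, map_add, map_sub, map_smul]
      ring
    rw [h3 x f hf, h4, map_sub, map_add, map_smul, map_smul, hδθ]
    abel
  · rw [hJ, hθε, hP.S_alt, LinearMap.zero_apply]
    module
  · intro y
    have h4 := hP.S_skew ε y θ θ
    have h5 : θ (P.S ε y θ) = 0 := by
      have : (2 : k) * θ (P.S ε y θ) = 0 := by linear_combination h4
      exact (mul_eq_zero.1 this).resolve_left two_ne_zero
    rw [hJ, map_add, map_add, map_sub, map_smul, hθε, h5, smul_eq_mul]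
    ring
  · intro η
    have h4 := dd hP hd ε θ η
    have h5 : b θ (δ η) = δ η + P.σ ε θ (δ η) := by
      rw [hb, R_ap4, hθε, one_smul]
    have h6 : η ∘ₗ J = η - η ∘ₗ P.T ε θ := by
      apply LinearMap.ext
      intro y
      simp [J]
    rw [hδθ] at h4
    have h7 : P.R ε η v = δ η := (hδ η).symm
    rw [h7] at h4
    have h8 := eq_sub_of_add_eq h4
    rw [h5, h6, map_sub, h8]

/-- stability of the range of `δ` under the operators `a` -/
theorem stab (hP : P.IsPkg) {ε : C} (hε : P.IsEps ε) {ι : Type} [Fintype ι]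
    (e : Basis ι k C) (hcard : Fintype.card ι = 12)
    (hR : ∀ u : B, ∑ i, P.R (e i) (e.coord i) u = (12 : k) • u)
    (Q : Core4 k C B e) (hQb : ∀ ξ, Q.b ξ = P.R ε ξ)
    (hQa : ∀ x ξ u, P.R x ξ u = P.R ε ξ (Q.a x u)) (x : C) (u : B)
    (hu : u ∈ LinearMap.range Q.δ) : Q.a x u ∈ LinearMap.range Q.δ := by
  set V := LinearMap.range Q.δ with hV
  have hmem : ∀ x ξ, ∀ u ∈ V, P.R x ξ u ∈ V := by
    rintro x ξ _ ⟨η, rfl⟩
    rw [hQa, ← hQb]
    exact Q.mem_ba hcard x ξ η
  let Rr : C → Dual k C → (V →ₗ[k] V) := fun x ξ => (P.R x ξ).restrict (hmem x ξ)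
  have hRr : ∀ x ξ (u : V), ((Rr x ξ u : V) : B) = P.R x ξ (u : B) := fun x ξ u => rfl
  have hB1 : ∀ (x : C) (l : ι) (u : V), ∑ j, Rr (e j) (e.coord l) (Rr x (e.coord j) u) =
      (12 : k) • Rr x (e.coord l) u := by
    intro x l u
    apply Subtype.ext
    have h := congrArg (fun f : B →ₗ[k] B => f (u : B)) (hP.d1 ι e x (e.coord l))
    simp only [LinearMap.sum_apply, LinearMap.comp_apply, LinearMap.smul_apply] at h
    rw [AddSubmonoidClass.coe_finsetSum]
    simp only [hRr, Submodule.coe_smul]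
    exact h
  have hr := Blk_rank (fun i j => Rr (e i) (e.coord j)) (fun i l u => hB1 (e i) l u) (by
    intro u
    apply Subtype.ext
    rw [AddSubmonoidClass.coe_finsetSum]
    simp only [hRr, Submodule.coe_smul]
    exact hR u)
  let jj : V →ₗ[k] (ι → V) := LinearMap.pi (fun j => Rr ε (e.coord j))
  have hjj : ∀ u j, jj u j = Rr ε (e.coord j) u := fun u j => rfl
  have hsum : ∀ (x : C) (u : B) (ξ : Dual k C), P.R x ξ u = ∑ j, ξ (e j) • P.R x (e.coord j) u := by
    intro x u ξ
    have := sum_dual e ((P.Rl x).flip u) ξ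
    simp only [LinearMap.flip_apply, Rl_apply] at this
    exact this.symm
  have hjinj : Function.Injective jj := by
    rw [← LinearMap.ker_eq_bot, LinearMap.ker_eq_bot']
    intro u hu
    apply Subtype.ext
    refine R_inj e hP hR hε (w := (u : B)) fun ξ => ?_
    rw [hsum]
    refine Finset.sum_eq_zero fun j _ => ?_
    have h1 := congrArg (fun f : ι → V => ((f j : V) : B)) hu
    simp only [hjj, hRr, Pi.zero_apply, ZeroMemClass.coe_zero] at h1
    rw [h1, smul_zero]
  have hBlk : ∀ (x : C) (u : V), Blk (fun i j => Rr (e i) (e.coord j)) (fun i => Rr x (e.coord i) u) =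
      (12 : k) • fun j => Rr x (e.coord j) u := by
    intro x u
    funext l
    rw [Blk_apply, Pi.smul_apply]
    exact hB1 x l u
  have h12 : (12 : k) ≠ 0 := by norm_num
  have hin : ∀ (x : C) (u : V), (fun j => Rr x (e.coord j) u) ∈
      LinearMap.range (Blk (fun i j => Rr (e i) (e.coord j))) := by
    intro x u
    refine ⟨(12 : k)⁻¹ • (fun i => Rr x (e.coord i) u), ?_⟩
    rw [map_smul, hBlk, smul_smul, inv_mul_cancel₀ h12, one_smul]
  have hsub : LinearMap.range jj ≤ LinearMap.range (Blk (fun i j => Rr (e i) (e.coord j))) := by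
    rintro _ ⟨u, rfl⟩
    exact hin ε u
  have heq : LinearMap.range jj = LinearMap.range (Blk (fun i j => Rr (e i) (e.coord j))) := by
    apply Submodule.eq_of_le_of_finrank_eq hsub
    rw [hr]
    exact LinearMap.finrank_range_of_inj hjinj
  have h1 := hin x ⟨u, hu⟩
  rw [← heq] at h1
  obtain ⟨w, hw⟩ := h1
  have h2 : Q.a x u - (w : B) = 0 := by
    refine R_inj e hP hR hε fun ξ => ?_
    rw [map_sub, ← hQa, hsum x u ξ, hsum ε w ξ, ← Finset.sum_sub_distrib]
    refine Finset.sum_eq_zero fun j _ => ?_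
    have h3 := congrArg (fun f : ι → V => ((f j : V) : B)) hw
    simp only [hjj, hRr] at h3
    rw [h3, sub_self]
  rw [sub_eq_zero.1 h2]
  exact w.2

/-- CF4 from the two sums of CF1 -/
theorem exists_clifford_of (hP : P.IsPkg) {ε : C} (hε : P.IsEps ε) {ι : Type} [Fintype ι]
    (e : Basis ι k C) (hcard : Fintype.card ι = 12)
    (htau : ∑ i, P.σ (e i) (e.coord i) = 0)
    (hT : ∑ i, P.T (e i) (e.coord i) = (12 : k) • LinearMap.id)
    {δ : Dual k C →ₗ[k] B} {del : B →ₗ[k] C} (hd : P.IsDer δ del)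
    (hinj : Function.Injective δ) :
    ∃ (W : Submodule k C) (K : W →ₗ[k] W →ₗ[k] k) (Tw : W →ₗ[k] (C →ₗ[k] C)),
      finrank k W = 11 ∧ (∀ w, (∀ w', K w w' = 0) → w = 0) ∧
      (∀ w w', K w w' = K w' w) ∧ ∀ w, Tw w ∘ₗ Tw w = K w w • LinearMap.id := by
  obtain ⟨Q, -, -, hb, ha⟩ := exists_core hP hε e hcard htau hT hd hinj
  have hR : ∀ u : B, ∑ i, P.R (e i) (e.coord i) u = (12 : k) • u := by
    intro u
    rw [← Q.h2 u]
    refine Finset.sum_congr rfl fun i _ => ?_
    rw [ha (e i) (e.coord i) u, ← hb]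
  exact Q.exists_W hcard (fun x u hu => stab hP hε e hcard hR Q hb ha x u hu)

end Dat

end LicciCF

end

section

/-! # CF4: existence of the Clifford structure -/

set_option autoImplicit false

open Module

namespace LicciCF

variable {k C B : Type*} [Field k] [CharZero k] [AddCommGroup C] [Module k C] [AddCommGroup B]
  [Module k B] [FiniteDimensional k C] [FiniteDimensional k B]

/-- CF4: existence of the algebra `W`. -/
theorem exists_clifford {P : Dat k C B} (hP : P.IsPkg) {ε : C} (hε : P.IsEps ε)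
    (h12 : finrank k C = 12) {δ : Dual k C →ₗ[k] B} {del : B →ₗ[k] C} (hd : P.IsDer δ del)
    (hinj : Function.Injective δ) :
    ∃ (W : Submodule k C) (K : W →ₗ[k] W →ₗ[k] k) (Tw : W →ₗ[k] (C →ₗ[k] C)),
      finrank k W = 11 ∧ (∀ w, (∀ w', K w w' = 0) → w = 0) ∧
      (∀ w w', K w w' = K w' w) ∧ ∀ w, Tw w ∘ₗ Tw w = K w w • LinearMap.id := by
  let e := Module.finBasis k C
  exact Dat.exists_clifford_of hP hε e (by rw [Fintype.card_fin, h12])
    (tau_zero hP (Fin (finrank k C)) e) (sum_T hP (Fin (finrank k C)) e) hd hinj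

end LicciCF

end

section

/-! # The closed fibre in codimension six does not exist -/

set_option autoImplicit false

open Module

namespace LicciCF

variable {k C B : Type*} [Field k] [CharZero k] [AddCommGroup C] [Module k C] [AddCommGroup B]
  [Module k B] [FiniteDimensional k C] [FiniteDimensional k B]

/-- The end of the proof. -/
theorem no_closed_fibre {P : Dat k C B} (hP : P.IsPkg) {ε : C} (hε : P.IsEps ε)
    {δ : Dual k C →ₗ[k] B} {del : B →ₗ[k] C} (hd : P.IsDer δ del) (hne : δ ≠ 0) : False := by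
  have h12 : finrank k C = 12 :=
    (two_or_twelve hP hε.ne hε.e1 hε.e2).resolve_left (ne_two hP)
  have hinj := inj_of_ne hP hε hd hne
  obtain ⟨W, K, Tw, h1, h2, h3, h4⟩ := exists_clifford hP hε h12 hd hinj
  exact no_clifford h12 W h1 K Tw h2 h3 h4

end LicciCF

end

section

/-!
# The closed fibre in index form gives a closed fibre package, I: identities
-/

set_option autoImplicit false
set_option linter.unusedSectionVars false

open Finset Matrix LicciCx

namespace LicciCore

section signs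

variable {k : Type*} [CommRing k]

@[simp] lemma kz_zero_left (n : ℤ) : kz k 0 n = 1 := by simp [kz, sg_zero]
@[simp] lemma kz_zero_right (n : ℤ) : kz k n 0 = 1 := by simp [kz, sg_zero]
@[simp] lemma kz_pp : kz k 1 1 = -1 := by simp [kz, sg_one]
@[simp] lemma kz_pm : kz k 1 (-1) = -1 := by simp [kz, sg_one, sg_neg]
@[simp] lemma kz_mp : kz k (-1) 1 = -1 := by simp [kz, sg_one, sg_neg]
@[simp] lemma kz_mm : kz k (-1) (-1) = -1 := by simp [kz, sg_one]

lemma kz_comm (m n : ℤ) : kz k m n = kz k n m := by rw [kz, kz, mul_comm]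

lemma kz_add_right (m n n' : ℤ) : kz k m (n + n') = kz k m n * kz k m n' := by
  rw [kz, kz, kz, mul_add, sg_add, Int.cast_mul]

lemma kz_add_left (m m' n : ℤ) : kz k (m + m') n = kz k m n * kz k m' n := by
  rw [kz_comm, kz_add_right, kz_comm n, kz_comm n]

lemma kz_neg_left (m n : ℤ) : kz k (-m) n = kz k m n := by
  rw [kz, kz, neg_mul, sg_neg]

lemma kz_neg_right (m n : ℤ) : kz k m (-n) = kz k m n := by
  rw [kz_comm, kz_neg_left, kz_comm]

lemma kz_mul_self (m n : ℤ) : kz k m n * kz k m n = 1 := by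
  rw [kz, ← Int.cast_mul, sg_mul_self, Int.cast_one]

end signs

namespace Sfts

variable {k : Type*} [Field k] {J : Type*} [Fintype J] [DecidableEq J] {deg : J → ℤ}
  {om : Matrix J J k} {D : J → J → J → J → k}

section basic

variable (h : Sfts deg om D)
include h

lemma cases3 (j : J) : deg j = -1 ∨ deg j = 0 ∨ deg j = 1 := by
  have h1 := h.deg_le j
  have h2 := h.le_deg j
  omega

lemma om_rho (i j : J) : ∑ a, om i a * om⁻¹ a j = if i = j then 1 else 0 := by
  rw [← Matrix.mul_apply, Matrix.mul_nonsing_inv om h.om_unit, Matrix.one_apply]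

lemma rho_om (i j : J) : ∑ a, om⁻¹ i a * om a j = if i = j then 1 else 0 := by
  rw [← Matrix.mul_apply, Matrix.nonsing_inv_mul om h.om_unit, Matrix.one_apply]

lemma rho_deg (a b : J) (hab : deg a + deg b ≠ 0) : om⁻¹ a b = 0 := by
  let ρ' : Matrix J J k := Matrix.of fun a b => if deg a + deg b = 0 then om⁻¹ a b else 0
  have h1 : om * ρ' = 1 := by
    ext a c
    rw [Matrix.mul_apply]
    by_cases hac : deg a = deg c
    · rw [← Matrix.mul_nonsing_inv om h.om_unit, Matrix.mul_apply]
      refine sum_congr rfl fun b _ => ?_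
      by_cases hb : deg b + deg c = 0
      · simp [ρ', hb]
      · rw [h.om_deg a b (by omega)]; simp
    · rw [Matrix.one_apply_ne (by rintro rfl; exact hac rfl)]
      refine sum_eq_zero fun b _ => ?_
      by_cases hb : deg b + deg c = 0
      · rw [h.om_deg a b (by omega)]; simp
      · simp [ρ', hb]
  have h2 : om⁻¹ = ρ' := Matrix.inv_eq_right_inv h1
  have h3 := congrFun (congrFun h2 a) b
  simpa [ρ', hab] using h3

lemma rho_symm (a b : J) : om⁻¹ a b = -(kz k (deg a) (deg b) * om⁻¹ b a) := by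
  have h1 : om * (Matrix.of fun a b => -(kz k (deg a) (deg b) * om⁻¹ b a)) = 1 := by
    ext a c
    rw [Matrix.mul_apply, Matrix.one_apply, ← if_congr (eq_comm (a := c) (b := a)) rfl rfl,
      ← h.rho_om c a]
    refine sum_congr rfl fun b _ => ?_
    rw [Matrix.of_apply]
    by_cases hb : deg b + deg c = 0
    · by_cases hb' : deg b + deg a = 0
      · rw [h.om_symm a b, show deg c = deg a by omega, kz_comm (deg a) (deg b)]
        linear_combination om b a * om⁻¹ c b * kz_mul_self (k := k) (deg b) (deg a)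
      · rw [h.om_deg a b (by omega), h.om_deg b a hb']; simp
    · rw [h.rho_deg c b (by omega)]; simp
  have h3 := congrFun (congrFun (Matrix.inv_eq_right_inv h1) a) b
  exact h3

/-- `∑ b, ρ a b ω s b` -/
lemma rho_om_tr (a s : J) : ∑ b, om⁻¹ a b * om s b = -(kz k (deg s) (deg s)) *
    if a = s then 1 else 0 := by
  rw [← h.rho_om a s, mul_sum]
  refine sum_congr rfl fun b _ => ?_
  by_cases hb : deg s + deg b = 0
  · rw [h.om_symm s b, show deg b = -deg s by omega, kz_neg_right]
    ring
  · rw [h.om_deg s b hb, h.om_deg b s (by omega)]; simp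

/-- `∑ b, ω m b ρ l b` -/
lemma om_rho_tr (m l : J) : ∑ b, om m b * om⁻¹ l b = -(kz k (deg l) (deg l)) *
    if m = l then 1 else 0 := by
  have h1 := h.rho_om_tr l m
  have h2 : ∑ b, om m b * om⁻¹ l b = ∑ b, om⁻¹ l b * om m b := sum_congr rfl fun b _ => mul_comm _ _
  rw [h2, h1]
  by_cases hm : m = l
  · subst hm; rfl
  · rw [if_neg hm, if_neg (Ne.symm hm)]; ring

lemma sum_rho {j : J} (hj : deg j = 1) {f g : J → k} (hfg : ∀ a, deg a = -1 → f a = g a) :
    ∑ a, om⁻¹ j a * f a = ∑ a, om⁻¹ j a * g a := by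
  refine sum_congr rfl fun a _ => ?_
  by_cases ha : deg a = -1
  · rw [hfg a ha]
  · rw [h.rho_deg j a (by omega)]; simp

lemma crossR {i p a : J} (q : J) (hi : deg i = 1) (hp : deg p = 0) (ha : deg a = -1) :
    D i p a q = D i a p q + om a i * (if p = q then 1 else 0) := by
  have h1 := h.cross i p a q
  rw [h.om_deg p a (by omega), h.om_deg i p (by omega), h.om_symm i a, hi, hp, ha, kz_zero_left,
    kz_pm] at h1
  linear_combination h1

lemma crossT {i l a : J} (m : J) (hi : deg i = 1) (hl : deg l = 1) (ha : deg a = -1) :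
    D i a l m = -D i l a m + 2 * (om a l * (if i = m then 1 else 0)) -
      om a i * (if l = m then 1 else 0) := by
  have h1 := h.cross i a l m
  rw [h.om_deg i l (by omega), h.om_symm i a, hi, hl, ha, kz_mp, kz_pm] at h1
  linear_combination h1

lemma R_eq {i j p : J} (q : J) (hi : deg i = 1) (hj : deg j = 1) (hp : deg p = 0) :
    ∑ a, om⁻¹ j a * D i p a q = (if i = j then if p = q then 1 else 0 else 0) +
      ∑ a, om⁻¹ j a * D i a p q := by
  rw [h.sum_rho hj (fun a ha => h.crossR q hi hp ha)]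
  simp only [mul_add, sum_add_distrib, ← mul_assoc, ← sum_mul, h.rho_om]
  rw [add_comm]
  congr 1
  by_cases hij : i = j
  · subst hij; simp
  · simp [hij, Ne.symm hij]

lemma T_eq {i j l : J} (m : J) (hi : deg i = 1) (hj : deg j = 1) (hl : deg l = 1) :
    ∑ a, om⁻¹ j a * D i a l m = 2 * (if j = l then if i = m then 1 else 0 else 0) -
      (if i = j then if l = m then 1 else 0 else 0) - ∑ a, om⁻¹ j a * D i l a m := by
  rw [h.sum_rho hj (fun a ha => h.crossT m hi hl ha)]
  have h1 : ∀ a, om⁻¹ j a * (-D i l a m + 2 * (om a l * (if i = m then 1 else 0)) -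
      om a i * (if l = m then 1 else 0)) = -(om⁻¹ j a * D i l a m) +
        2 * ((om⁻¹ j a * om a l) * (if i = m then 1 else 0)) -
        (om⁻¹ j a * om a i) * (if l = m then 1 else 0) := fun a => by ring
  simp only [h1, sum_sub_distrib, sum_add_distrib, sum_neg_distrib, ← mul_sum, ← sum_mul, h.rho_om]
  by_cases hij : i = j
  · subst hij
    by_cases hjl : i = l
    · subst hjl; simp; ring
    · simp [hjl]; ring
  · by_cases hjl : j = l
    · subst hjl; simp [hij, Ne.symm hij]; ring
    · simp [hij, Ne.symm hij, hjl]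

/-- the identity `(f)` with a free upper index -/
lemma sq' (i j l m : J) : ∑ b, ∑ s, (∑ a, om⁻¹ a b * D i j a s) * (∑ c, om⁻¹ l c * D s b c m) =
    24 * ∑ c, om⁻¹ l c * D i j c m := by
  have h1 : ∀ c, ∑ b, ∑ s, (∑ a, om⁻¹ a b * D i j a s) * D s b c m = 24 * D i j c m := by
    intro c
    rw [← h.sq i j c m]
    simp only [sum_mul]
    calc ∑ b, ∑ s, ∑ a, om⁻¹ a b * D i j a s * D s b c m
        = ∑ b, ∑ a, ∑ s, om⁻¹ a b * D i j a s * D s b c m :=
          sum_congr rfl fun b _ => sum_comm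
      _ = _ := sum_comm
  calc ∑ b, ∑ s, (∑ a, om⁻¹ a b * D i j a s) * (∑ c, om⁻¹ l c * D s b c m)
      = ∑ b, ∑ s, ∑ c, om⁻¹ l c * ((∑ a, om⁻¹ a b * D i j a s) * D s b c m) := by
        refine sum_congr rfl fun b _ => sum_congr rfl fun s _ => ?_
        rw [mul_sum]
        exact sum_congr rfl fun c _ => by ring
    _ = ∑ b, ∑ c, ∑ s, om⁻¹ l c * ((∑ a, om⁻¹ a b * D i j a s) * D s b c m) :=
        sum_congr rfl fun b _ => sum_comm
    _ = ∑ c, ∑ b, ∑ s, om⁻¹ l c * ((∑ a, om⁻¹ a b * D i j a s) * D s b c m) := sum_comm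
    _ = ∑ c, om⁻¹ l c * (24 * D i j c m) := by
        refine sum_congr rfl fun c _ => ?_
        rw [← h1 c]
        simp only [mul_sum]
    _ = _ := by
        rw [mul_sum]
        exact sum_congr rfl fun c _ => by ring

lemma U_deg (i j b s : J) (hd : deg b + deg s ≠ deg i + deg j) :
    ∑ a, om⁻¹ a b * D i j a s = 0 := by
  refine sum_eq_zero fun a _ => ?_
  by_cases ha : deg a + deg b = 0
  · rw [h.D_deg i j a s (by omega), mul_zero]
  · rw [h.rho_deg a b ha, zero_mul]

lemma E_deg (i j x y : J) (hd : deg y ≠ deg i - deg j + deg x) :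
    ∑ a, om⁻¹ j a * D i a x y = 0 := by
  refine sum_eq_zero fun a _ => ?_
  by_cases ha : deg j + deg a = 0
  · rw [h.D_deg i a x y (by omega), mul_zero]
  · rw [h.rho_deg j a ha, zero_mul]

/-- the tensor of `D(e_i,e_j)` is super symmetric -/
lemma U_symm (i j b s : J) : ∑ a, om⁻¹ a b * D i j a s =
    kz k (deg b) (deg s) * ∑ a, om⁻¹ a s * D i j a b := by
  have key : ∑ a, om⁻¹ a b * D i j a s =
      kz k (deg b) (deg i + deg j) * kz k (deg b) (deg b) * ∑ a, om⁻¹ a s * D i j a b := by
    have h1 : ∀ a, D i j a s = -∑ r, om⁻¹ r s * (kz k (deg a) (deg i + deg j) *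
        ∑ m, om a m * D i j r m) := by
      intro a
      have h2 : ∀ r, kz k (deg a) (deg i + deg j) * ∑ m, om a m * D i j r m =
          -∑ m, D i j a m * om m r := fun r => by linear_combination h.sp i j a r
      simp only [h2, mul_neg, sum_neg_distrib, neg_neg]
      calc D i j a s = ∑ m, D i j a m * (if m = s then 1 else 0) := by simp
        _ = ∑ m, D i j a m * ∑ r, om m r * om⁻¹ r s := by simp only [h.om_rho]
        _ = ∑ m, ∑ r, om⁻¹ r s * (D i j a m * om m r) := by
          refine sum_congr rfl fun m _ => ?_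
          rw [mul_sum]
          exact sum_congr rfl fun r _ => by ring
        _ = ∑ r, ∑ m, om⁻¹ r s * (D i j a m * om m r) := sum_comm
        _ = _ := by simp only [mul_sum]
    calc ∑ a, om⁻¹ a b * D i j a s
        = ∑ a, ∑ r, ∑ m, -(kz k (deg a) (deg i + deg j) * om⁻¹ a b * om a m *
            (om⁻¹ r s * D i j r m)) := by
          refine sum_congr rfl fun a _ => ?_
          rw [h1 a, mul_neg, mul_sum, ← sum_neg_distrib]
          refine sum_congr rfl fun r _ => ?_
          rw [mul_sum, mul_sum, mul_sum, ← sum_neg_distrib]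
          exact sum_congr rfl fun m _ => by ring
      _ = ∑ a, ∑ m, ∑ r, -(kz k (deg a) (deg i + deg j) * om⁻¹ a b * om a m *
            (om⁻¹ r s * D i j r m)) := sum_congr rfl fun a _ => sum_comm
      _ = ∑ m, ∑ a, ∑ r, -(kz k (deg a) (deg i + deg j) * om⁻¹ a b * om a m *
            (om⁻¹ r s * D i j r m)) := sum_comm
      _ = ∑ m, (kz k (deg b) (deg i + deg j) * kz k (deg b) (deg b) * if m = b then 1 else 0) *
            ∑ r, om⁻¹ r s * D i j r m := by
          refine sum_congr rfl fun m _ => ?_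
          have h3 : kz k (deg b) (deg i + deg j) * kz k (deg b) (deg b) *
              (if m = b then 1 else 0) =
              ∑ a, -(kz k (deg a) (deg i + deg j) * om⁻¹ a b * om a m) := by
            rw [← h.om_rho m b, mul_sum]
            refine sum_congr rfl fun a _ => ?_
            by_cases ha : deg a + deg b = 0
            · by_cases hm : deg m + deg a = 0
              · rw [h.om_symm a m, show deg a = -deg b by omega, show deg m = deg b by omega,
                  kz_neg_left, kz_neg_left]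
                ring
              · rw [h.om_deg a m (by omega), h.om_deg m a (by omega)]; simp
            · rw [h.rho_deg a b ha]; simp
          rw [h3, sum_mul]
          refine sum_congr rfl fun a _ => ?_
          rw [mul_sum]
          exact sum_congr rfl fun r _ => by ring
      _ = _ := by simp
  rw [key]
  by_cases hd : deg s + deg b = deg i + deg j
  · rw [← hd, kz_add_right, mul_assoc (kz k (deg b) (deg s)), kz_mul_self, mul_one]
  · rw [h.U_deg i j s b hd]; simp


/-! ### sums over the homogeneous parts -/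

omit h in
lemma sum_deg {M : Type*} [AddCommMonoid M] (n : ℤ) (f : J → M) (hf : ∀ j, deg j ≠ n → f j = 0) :
    ∑ j, f j = ∑ i : {j // deg j = n}, f i := by
  rw [← Finset.sum_filter_of_ne (p := fun j => deg j = n) (fun j _ hj => by
    by_contra hn; exact hj (hf j hn))]
  exact Finset.sum_subtype _ (by simp) f

lemma sum_deg3 (f : J → k) : ∑ j, f j = ∑ j, (if deg j = -1 then f j else 0) +
    ∑ j, (if deg j = 0 then f j else 0) + ∑ j, (if deg j = 1 then f j else 0) := by
  rw [← sum_add_distrib, ← sum_add_distrib]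
  refine sum_congr rfl fun j _ => ?_
  rcases h.cases3 j with hj | hj | hj <;> simp [hj]

omit h in
lemma sum_ite_deg (n : ℤ) (f : J → k) : ∑ j, (if deg j = n then f j else 0) =
    ∑ i : {j // deg j = n}, f i := by
  rw [sum_deg n _ (fun j hj => if_neg hj)]
  exact sum_congr rfl fun i _ => if_pos i.2

/-- a symmetric double sum in total degree one -/
lemma sum_sym (F : J → J → k) (hs : ∀ b s, F b s = F s b)
    (hd : ∀ b s, deg b + deg s ≠ 1 → F b s = 0) :
    ∑ b, ∑ s, F b s = 2 * ∑ b : {j // deg j = 1}, ∑ s : {j // deg j = 0}, F b s := by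
  have h1 : ∀ b s, F b s = (if deg b = 1 then F b s else 0) + (if deg s = 1 then F s b else 0) := by
    intro b s
    by_cases hbs : deg b + deg s = 1
    · rcases h.cases3 b with hb | hb | hb
      · have := h.deg_le s; omega
      · rw [if_neg (by omega), if_pos (by omega), zero_add, hs]
      · rw [if_pos hb, if_neg (by omega), add_zero]
    · rw [hd b s hbs, hd s b (by omega)]; simp
  have h2 : ∑ b, ∑ s, (if deg b = 1 then F b s else 0) =
      ∑ b : {j // deg j = 1}, ∑ s : {j // deg j = 0}, F b s := by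
    rw [sum_deg 1 _ (fun b hb => sum_eq_zero fun s _ => if_neg hb)]
    refine sum_congr rfl fun b _ => ?_
    rw [sum_congr rfl fun s _ => if_pos b.2]
    exact sum_deg 0 _ (fun s hs' => hd b s (by rw [b.2]; omega))
  calc ∑ b, ∑ s, F b s = ∑ b, ∑ s, (if deg b = 1 then F b s else 0) +
        ∑ b, ∑ s, (if deg s = 1 then F s b else 0) := by
        rw [← sum_add_distrib]
        refine sum_congr rfl fun b _ => ?_
        rw [← sum_add_distrib]
        exact sum_congr rfl fun s _ => h1 b s
    _ = _ := by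
        rw [sum_comm (f := fun b s => if deg s = 1 then F s b else 0), h2]
        ring

/-- `(d1)` -/
lemma d1 {i j p : J} (q : J) (hi : deg i = 1) (hp : deg p = 0) :
    2 * ∑ b : {j // deg j = 1}, ∑ s : {j // deg j = 0}, (∑ a, om⁻¹ b a * D i p a s) *
      (∑ c, om⁻¹ j c * D b s c q) = 24 * ∑ c, om⁻¹ j c * D i p c q := by
  rw [← h.sq' i p j q]
  have h1 : ∀ b s, (∑ a, om⁻¹ a b * D i p a s) * (∑ c, om⁻¹ j c * D s b c q) =
      (∑ a, om⁻¹ a s * D i p a b) * (∑ c, om⁻¹ j c * D b s c q) := by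
    intro b s
    have h2 : ∑ c, om⁻¹ j c * D s b c q = kz k (deg b) (deg s) * ∑ c, om⁻¹ j c * D b s c q := by
      rw [mul_sum]
      refine sum_congr rfl fun c _ => ?_
      rw [h.D_symm s b c q, kz_comm]; ring
    rw [h.U_symm i p b s, h2]
    linear_combination (∑ a, om⁻¹ a s * D i p a b) * (∑ c, om⁻¹ j c * D b s c q) *
      kz_mul_self (k := k) (deg b) (deg s)
  rw [h.sum_sym (fun b s => (∑ a, om⁻¹ a b * D i p a s) * (∑ c, om⁻¹ j c * D s b c q)) h1
    (fun b s hbs => by rw [h.U_deg i p b s (by omega), zero_mul])]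
  congr 1
  refine sum_congr rfl fun b _ => sum_congr rfl fun s _ => ?_
  congr 1
  · refine sum_congr rfl fun a _ => ?_
    by_cases ha : deg a = -1
    · rw [h.rho_symm a b, ha, b.2, kz_mp]; ring
    · rw [h.rho_deg b a (by rw [b.2]; omega), h.rho_deg a b (by rw [b.2]; omega)]
  · refine sum_congr rfl fun c _ => ?_
    rw [h.D_symm b s, s.2, kz_zero_right, one_mul]

/-- `(d2)` -/
lemma d2 {i j : J} (l m : J) (hi : deg i = 1) (hj : deg j = 1) :
    ∑ b : {j // deg j = 1}, ∑ s : {j // deg j = 1}, (∑ a, om⁻¹ b a * D i j a s) *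
      (∑ c, om⁻¹ l c * D s b c m) = 24 * ∑ c, om⁻¹ l c * D i j c m := by
  have h1 := sum_deg (deg := deg) 1 (fun b => ∑ s, (∑ a, om⁻¹ a b * D i j a s) *
      (∑ c, om⁻¹ l c * D s b c m)) (fun b hb => sum_eq_zero fun s _ => by
    rw [h.U_deg i j b s (by have := h.deg_le s; have := h.deg_le b; omega), zero_mul])
  rw [← h.sq' i j l m, h1]
  refine sum_congr rfl fun b _ => ?_
  have h2 := sum_deg (deg := deg) 1 (fun s => (∑ a, om⁻¹ a b * D i j a s) *
      (∑ c, om⁻¹ l c * D s b c m)) (fun s hs => by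
    rw [h.U_deg i j b s (by have := h.deg_le s; have := h.deg_le b; omega), zero_mul])
  rw [h2]
  refine sum_congr rfl fun s _ => ?_
  congr 1
  refine sum_congr rfl fun a _ => ?_
  by_cases ha : deg a = -1
  · rw [h.rho_symm a b, ha, b.2, kz_mp]; ring
  · rw [h.rho_deg b a (by rw [b.2]; omega), h.rho_deg a b (by rw [b.2]; omega)]

/-! ### the lowered tensor -/

omit h in
/-- `ω(D(e_i,e_j)e_l, e_r)` -/
def Dl (_ : Sfts deg om D) (i j l r : J) : k := ∑ m, D i j l m * om m r

lemma Dl12 (i j l r : J) : h.Dl i j l r = kz k (deg i) (deg j) * h.Dl j i l r := by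
  rw [Dl, Dl, mul_sum]
  exact sum_congr rfl fun m _ => by rw [h.D_symm i j l m]; ring

lemma Dl34 (i j l r : J) : h.Dl i j l r = kz k (deg l) (deg r) * h.Dl i j r l := by
  have h1 := h.sp i j l r
  have h2 : kz k (deg l) (deg i + deg j) * ∑ m, om l m * D i j r m =
      -(kz k (deg l) (deg r) * h.Dl i j r l) := by
    rw [Dl, mul_sum, mul_sum, ← sum_neg_distrib]
    refine sum_congr rfl fun m _ => ?_
    by_cases hm : deg m = deg i + deg j + deg r
    · rw [h.om_symm l m, hm, kz_add_right (deg l) (deg i + deg j)]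
      linear_combination -(kz k (deg l) (deg r) * om m l * D i j r m) *
        kz_mul_self (k := k) (deg l) (deg i + deg j)
    · rw [h.D_deg i j r m hm]; simp
  rw [h2] at h1
  rw [Dl]
  linear_combination h1

lemma Dl23 (i j l r : J) : h.Dl i j l r = kz k (deg j) (deg l) * h.Dl i l j r +
    (2 * om j l * om i r - om i j * om l r + kz k (deg j) (deg l) * om i l * om j r) := by
  have h1 : ∀ m, D i j l m * om m r = kz k (deg j) (deg l) * (D i l j m * om m r) +
      (2 * om j l * ((if i = m then 1 else 0) * om m r) - om i j *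
        ((if l = m then 1 else 0) * om m r) +
      kz k (deg j) (deg l) * om i l * ((if j = m then 1 else 0) * om m r)) := fun m => by
    linear_combination om m r * h.cross i j l m
  rw [Dl, sum_congr rfl fun m _ => h1 m]
  simp only [sum_add_distrib, sum_sub_distrib, ← mul_sum, Dl, ite_mul, one_mul, zero_mul,
    sum_ite_eq, mem_univ, if_true]

lemma Dl_pair_pm {m b l a : J} (hm : deg m = 1) (hb : deg b = -1) (hl : deg l = 1)
    (ha : deg a = -1) : h.Dl m b l a = h.Dl l a m b := by
  have h1 := h.Dl23 m b l a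
  have h2 := h.Dl12 m l b a
  have h3 := h.Dl34 l m b a
  have h4 := h.Dl23 l m a b
  have o1 : om b a = 0 := h.om_deg _ _ (by omega)
  have o2 : om a b = 0 := h.om_deg _ _ (by omega)
  have o3 := h.om_symm b l
  have o4 := h.om_symm l m
  rw [hb, hl, kz_mp] at h1
  rw [hm, hl, kz_pp] at h2
  rw [hb, ha, kz_mm] at h3
  rw [hm, ha, kz_pm] at h4
  rw [hb, hl, kz_mp] at o3
  rw [o1] at h1
  rw [o2] at h4
  linear_combination h1 - h2 + h3 - h4 + 2 * om m a * o3

lemma Dl_pair_zz {m b l a : J} (hm : deg m = 0) (hb : deg b = 0) (hl : deg l = 1)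
    (ha : deg a = -1) : h.Dl m b l a = h.Dl l a m b := by
  have h1 := h.Dl23 m b l a
  have h2 := h.Dl12 m l b a
  have h3 := h.Dl34 l m b a
  have h4 := h.Dl23 l m a b
  have o1 : om b a = 0 := h.om_deg _ _ (by omega)
  have o2 : om a b = 0 := h.om_deg _ _ (by omega)
  have o3 : om b l = 0 := h.om_deg _ _ (by omega)
  have o4 : om l b = 0 := h.om_deg _ _ (by omega)
  have o5 : om m l = 0 := h.om_deg _ _ (by omega)
  have o6 : om m a = 0 := h.om_deg _ _ (by omega)
  simp only [hb, hm, kz_zero_left, one_mul] at h1 h2 h3 h4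
  rw [o1, o3, o5] at h1
  rw [o2, o4, o6] at h4
  linear_combination h1 + h2 + h3 + h4

/-- pair symmetry -/
lemma Dl_pair {m b l a : J} (hmb : deg m + deg b = 0) (hl : deg l = 1)
    (ha : deg a = -1) : h.Dl m b l a = h.Dl l a m b := by
  rcases h.cases3 m with hm | hm | hm
  · have hb : deg b = 1 := by omega
    have h1 := h.Dl12 m b l a
    have h2 := h.Dl34 l a m b
    rw [hm, hb, kz_mp] at h1 h2
    rw [h1, h2, h.Dl_pair_pm hb hm hl ha]
  · exact h.Dl_pair_zz hm (by omega) hl ha
  · exact h.Dl_pair_pm hm (by omega) hl ha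

lemma Dl_up (m b l : J) {r : J} (hr : deg r = 1) :
    ∑ a, om⁻¹ r a * h.Dl m b l a = D m b l r := by
  calc ∑ a, om⁻¹ r a * h.Dl m b l a = ∑ a, ∑ s, D m b l s * (om⁻¹ r a * om s a) := by
        refine sum_congr rfl fun a _ => ?_
        rw [Dl, mul_sum]
        exact sum_congr rfl fun s _ => by ring
    _ = ∑ s, ∑ a, D m b l s * (om⁻¹ r a * om s a) := sum_comm
    _ = ∑ s, D m b l s * if r = s then 1 else 0 := by
        refine sum_congr rfl fun s _ => ?_
        rw [← mul_sum, h.rho_om_tr r s]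
        by_cases hs : r = s
        · subst hs; rw [hr, kz_pp]; simp
        · simp [hs]
    _ = _ := by simp

/-- pair symmetry with upper indices -/
lemma D_pair {m b l r : J} (hmb : deg m + deg b = 0) (hl : deg l = 1) (hr : deg r = 1) :
    D m b l r = ∑ s, (∑ a, om⁻¹ r a * D l a m s) * om s b := by
  have h1 : ∑ a, om⁻¹ r a * h.Dl m b l a = ∑ a, om⁻¹ r a * h.Dl l a m b :=
    h.sum_rho hr (fun a ha => h.Dl_pair hmb hl ha)
  rw [← h.Dl_up m b l hr, h1]
  calc ∑ a, om⁻¹ r a * h.Dl l a m b = ∑ a, ∑ s, om⁻¹ r a * D l a m s * om s b := by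
        refine sum_congr rfl fun a _ => ?_
        rw [Dl, mul_sum]
        exact sum_congr rfl fun s _ => by ring
    _ = ∑ s, ∑ a, om⁻¹ r a * D l a m s * om s b := sum_comm
    _ = _ := by
        refine sum_congr rfl fun s _ => ?_
        rw [sum_mul]

/-- the matrix of `D(e_i, e^j)` -/
noncomputable def E (_ : Sfts deg om D) (i j : J) : Matrix J J k := Matrix.of fun x y => ∑ a, om⁻¹ j a * D i a x y

lemma E_apply (i j x y : J) : h.E i j x y = ∑ a, om⁻¹ j a * D i a x y := rfl

lemma E_skew {i j : J} (hi : deg i = 1) (hj : deg j = 1) (x y : J) :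
    ∑ m, h.E i j x m * om m y + ∑ m, om x m * h.E i j y m = 0 := by
  have h1 : ∀ a, deg a = -1 → ∑ m, D i a x m * om m y = -∑ m, om x m * D i a y m := by
    intro a ha
    have h2 := h.sp i a x y
    rw [hi, ha, add_neg_cancel, kz_zero_right, one_mul] at h2
    linear_combination h2
  have h3 := h.sum_rho hj h1
  have h4 : ∑ m, h.E i j x m * om m y = ∑ a, om⁻¹ j a * ∑ m, D i a x m * om m y := by
    simp only [E_apply, sum_mul, mul_sum]
    rw [sum_comm]
    exact sum_congr rfl fun _ _ => sum_congr rfl fun _ _ => by ring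
  have h5 : ∑ m, om x m * h.E i j y m = ∑ a, om⁻¹ j a * ∑ m, om x m * D i a y m := by
    simp only [E_apply, mul_sum]
    rw [sum_comm]
    exact sum_congr rfl fun _ _ => sum_congr rfl fun _ _ => by ring
  rw [h4, h5, h3]
  simp only [mul_neg, sum_neg_distrib, neg_add_cancel]

/-- the identity `(f)` for `D(e_i, e^j)` -/
lemma sqE (i j l r : J) : ∑ a, ∑ b, ∑ m, om⁻¹ a b * h.E i j a m * D m b l r =
    24 * h.E i j l r := by
  calc ∑ a, ∑ b, ∑ m, om⁻¹ a b * h.E i j a m * D m b l r
      = ∑ a, ∑ b, ∑ m, ∑ c, om⁻¹ j c * (om⁻¹ a b * D i c a m * D m b l r) := by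
        refine sum_congr rfl fun a _ => sum_congr rfl fun b _ => sum_congr rfl fun m _ => ?_
        rw [E_apply, mul_sum, sum_mul]
        exact sum_congr rfl fun c _ => by ring
    _ = ∑ a, ∑ b, ∑ c, ∑ m, om⁻¹ j c * (om⁻¹ a b * D i c a m * D m b l r) :=
        sum_congr rfl fun a _ => sum_congr rfl fun b _ => sum_comm
    _ = ∑ a, ∑ c, ∑ b, ∑ m, om⁻¹ j c * (om⁻¹ a b * D i c a m * D m b l r) :=
        sum_congr rfl fun a _ => sum_comm
    _ = ∑ c, ∑ a, ∑ b, ∑ m, om⁻¹ j c * (om⁻¹ a b * D i c a m * D m b l r) := sum_comm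
    _ = ∑ c, om⁻¹ j c * (24 * D i c l r) := by simp only [← mul_sum, h.sq]
    _ = _ := by
        rw [E_apply, mul_sum]
        exact sum_congr rfl fun c _ => by ring

omit h in
/-- projection on degree `n` -/
def pr (k : Type*) [Field k] (deg : J → ℤ) (n : ℤ) : Matrix J J k :=
  Matrix.diagonal fun j => if deg j = n then 1 else 0

lemma pr_om (n : ℤ) : pr k deg n * om = om * pr k deg (-n) := by
  ext a b
  rw [pr, pr, Matrix.diagonal_mul, Matrix.mul_diagonal]
  by_cases hab : deg a + deg b = 0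
  · by_cases ha : deg a = n
    · simp [ha, show deg b = -n by omega]
    · simp [ha, show deg b ≠ -n by omega]
  · rw [h.om_deg a b hab]; simp

lemma pr_E {i j : J} (hij : deg i = deg j) (n : ℤ) : pr k deg n * h.E i j = h.E i j * pr k deg n := by
  ext a b
  rw [pr, Matrix.diagonal_mul, Matrix.mul_diagonal]
  by_cases hab : deg b = deg a
  · rw [hab, mul_comm]
  · rw [h.E_apply, h.E_deg i j a b (by rw [hij]; simpa using hab)]; simp

lemma E_om {i j : J} (hi : deg i = 1) (hj : deg j = 1) : h.E i j * om = -(om * (h.E i j)ᵀ) := by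
  ext x y
  rw [Matrix.mul_apply, Matrix.neg_apply, Matrix.mul_apply]
  exact eq_neg_of_add_eq_zero_left (h.E_skew hi hj x y)

lemma tr_E {i j l r : J} (hi : deg i = 1) (hj : deg j = 1) (hl : deg l = 1) (hr : deg r = 1) :
    (pr k deg (-1) * h.E i j * h.E l r).trace = (pr k deg 1 * h.E i j * h.E l r).trace := by
  have e1 : ∀ {i j : J}, deg i = 1 → deg j = 1 → h.E i j = -(om * (h.E i j)ᵀ * om⁻¹) := by
    intro i j hi hj
    rw [← neg_mul, ← h.E_om hi hj, Matrix.mul_assoc, Matrix.mul_nonsing_inv om h.om_unit,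
      Matrix.mul_one]
  have e2 : pr k deg (-1) * h.E i j * h.E l r = om * (pr k deg 1 * (h.E i j)ᵀ * (h.E l r)ᵀ) * om⁻¹ := by
    conv_lhs => rw [e1 hi hj, e1 hl hr]
    have e3 : om⁻¹ * om = 1 := Matrix.nonsing_inv_mul om h.om_unit
    have e4 := h.pr_om (-1)
    rw [neg_neg] at e4
    calc pr k deg (-1) * -(om * (h.E i j)ᵀ * om⁻¹) * -(om * (h.E l r)ᵀ * om⁻¹)
        = (pr k deg (-1) * om) * (h.E i j)ᵀ * (om⁻¹ * om) * (h.E l r)ᵀ * om⁻¹ := by
          simp only [mul_neg, neg_mul, neg_neg, Matrix.mul_assoc]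
      _ = _ := by rw [e3, e4, Matrix.mul_one]; simp only [Matrix.mul_assoc]
  rw [e2, Matrix.trace_mul_comm, ← Matrix.mul_assoc, Matrix.nonsing_inv_mul om h.om_unit,
    Matrix.one_mul, ← Matrix.trace_transpose]
  have e5 : (pr k deg 1 * (h.E i j)ᵀ * (h.E l r)ᵀ)ᵀ = h.E l r * (h.E i j * pr k deg 1) := by
    simp only [Matrix.transpose_mul, Matrix.transpose_transpose, pr, Matrix.diagonal_transpose]
  rw [e5, ← h.pr_E (hi.trans hj.symm), Matrix.trace_mul_comm]

lemma tr_pr (n : ℤ) (A B : Matrix J J k) : (pr k deg n * A * B).trace =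
    ∑ a : {j // deg j = n}, ∑ m, A a m * B m a := by
  have h1 : (pr k deg n * A * B).trace = ∑ a, if deg a = n then ∑ m, A a m * B m a else 0 := by
    rw [Matrix.trace]
    refine sum_congr rfl fun a _ => ?_
    rw [Matrix.diag_apply, Matrix.mul_assoc, pr, Matrix.diagonal_mul, Matrix.mul_apply]
    split_ifs <;> simp
  rw [h1, sum_ite_deg]

/-- `(d0)` -/
lemma d0 {i j l r : J} (hi : deg i = 1) (hj : deg j = 1) (hl : deg l = 1) (hr : deg r = 1) :
    2 * (∑ a : {j // deg j = 1}, ∑ m : {j // deg j = 1}, h.E i j a m * h.E l r m a) -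
      (∑ a : {j // deg j = 0}, ∑ m : {j // deg j = 0}, h.E i j a m * h.E l r m a) =
      24 * h.E i j l r := by
  have h0 : ∀ (i j l r : J), deg i = 1 → deg j = 1 → ∀ (n : ℤ) (a : J), deg a = n →
      ∑ m, h.E i j a m * h.E l r m a = ∑ m : {j // deg j = n}, h.E i j a m * h.E l r m a := by
    intro i j l r hi hj n a ha
    refine sum_deg n _ (fun m hm => ?_)
    rw [h.E_apply, h.E_deg i j a m (by rw [hi, hj, ha]; omega), zero_mul]
  have h1 := h.sqE i j l r
  have h2 : ∀ a, ∑ b, ∑ m, om⁻¹ a b * h.E i j a m * D m b l r =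
      -(kz k (deg a) (deg a)) * ∑ m, h.E i j a m * h.E l r m a := by
    intro a
    calc ∑ b, ∑ m, om⁻¹ a b * h.E i j a m * D m b l r
        = ∑ b, ∑ m, ∑ s, h.E i j a m * h.E l r m s * (om⁻¹ a b * om s b) := by
          refine sum_congr rfl fun b _ => sum_congr rfl fun m _ => ?_
          by_cases hm : deg m = deg a
          · by_cases hb : deg a + deg b = 0
            · rw [h.D_pair (by omega) hl hr, mul_sum]
              exact sum_congr rfl fun s _ => by rw [E_apply (j := r)]; ring
            · rw [h.rho_deg a b hb]; simp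
          · rw [h.E_apply, h.E_deg i j a m (by rw [hi, hj]; omega)]; simp
      _ = ∑ m, ∑ b, ∑ s, h.E i j a m * h.E l r m s * (om⁻¹ a b * om s b) := sum_comm
      _ = ∑ m, ∑ s, ∑ b, h.E i j a m * h.E l r m s * (om⁻¹ a b * om s b) :=
          sum_congr rfl fun m _ => sum_comm
      _ = ∑ m, ∑ s, h.E i j a m * h.E l r m s * (-(kz k (deg s) (deg s)) *
            if a = s then 1 else 0) := by
          simp only [← mul_sum, h.rho_om_tr]
      _ = ∑ m, h.E i j a m * h.E l r m a * -(kz k (deg a) (deg a)) := by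
          refine sum_congr rfl fun m _ => ?_
          simp
      _ = _ := by rw [← sum_mul]; ring
  rw [sum_congr rfl fun a _ => h2 a, h.sum_deg3] at h1
  have h3 : ∀ n : ℤ, ∑ a, (if deg a = n then -(kz k (deg a) (deg a)) *
      ∑ m, h.E i j a m * h.E l r m a else 0) = -(kz k n n) * ∑ a : {j // deg j = n},
        ∑ m, h.E i j a m * h.E l r m a := by
    intro n
    rw [sum_ite_deg n (fun a => -(kz k (deg a) (deg a)) * ∑ m, h.E i j a m * h.E l r m a), mul_sum]
    exact sum_congr rfl fun a _ => by rw [a.2]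
  rw [h3, h3, h3, ← h.tr_pr (-1), ← h.tr_pr 1, h.tr_E hi hj hl hr, h.tr_pr 1] at h1
  simp only [kz_mm, kz_pp, kz_zero_left, neg_neg, one_mul, neg_mul] at h1
  rw [sum_congr rfl fun (a : {j // deg j = 1}) _ => h0 i j l r hi hj 1 a a.2,
    sum_congr rfl fun (a : {j // deg j = 0}) _ => h0 i j l r hi hj 0 a a.2] at h1
  linear_combination h1

end basic

end Sfts

end LicciCore

end

section

/-!
# The closed fibre in index form: identities of the differential
-/

set_option autoImplicit false
set_option linter.unusedSectionVars false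

open Finset Matrix LicciCx Module

namespace LicciCore

namespace Sfts

variable {k : Type*} [Field k] {J : Type*} [Fintype J] [DecidableEq J] {deg : J → ℤ}
  {om : Matrix J J k} {D : J → J → J → J → k} {de : Matrix J J k}

/-- coefficients of `d e^i` -/
noncomputable def dl (_ : Sfts deg om D) (_ : SDer deg om D de) (i p : J) : k :=
  ∑ a, om⁻¹ i a * de p a

variable (h : Sfts deg om D) (hd : SDer deg om D de)
include h hd

lemma de_om {a : J} (ha : deg a = -1) (p : J) :
    ∑ s, om s p * de s a = ∑ s, om a s * de s p := by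
  have h1 := hd.om_d a p
  rw [ha, kz_mp] at h1
  linear_combination h1

lemma rho_om_de (i w : J) : ∑ c, om⁻¹ i c * ∑ t, om c t * de t w = de i w := by
  calc ∑ c, om⁻¹ i c * ∑ t, om c t * de t w = ∑ c, ∑ t, om⁻¹ i c * om c t * de t w := by
        simp only [mul_sum, mul_assoc]
    _ = ∑ t, ∑ c, om⁻¹ i c * om c t * de t w := sum_comm
    _ = ∑ t, (if i = t then 1 else 0) * de t w := by simp only [← sum_mul, h.rho_om]
    _ = _ := by simp

lemma dl_om {i : J} (hi : deg i = 1) (p : J) : ∑ q, h.dl hd i q * om q p = de i p := by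
  calc ∑ q, h.dl hd i q * om q p = ∑ q, ∑ a, om⁻¹ i a * (om q p * de q a) := by
        refine sum_congr rfl fun q _ => ?_
        rw [dl, sum_mul]
        exact sum_congr rfl fun a _ => by ring
    _ = ∑ a, ∑ q, om⁻¹ i a * (om q p * de q a) := sum_comm
    _ = ∑ a, om⁻¹ i a * ∑ q, om q p * de q a := by simp only [mul_sum]
    _ = ∑ a, om⁻¹ i a * ∑ s, om a s * de s p := h.sum_rho hi fun a ha => h.de_om hd ha p
    _ = _ := h.rho_om_de hd i p

lemma dl_deg {i : J} (hi : deg i = 1) {p : J} (hp : deg p ≠ 0) : h.dl hd i p = 0 := by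
  refine sum_eq_zero fun a _ => ?_
  by_cases ha : deg a = -1
  · rw [hd.deg_one p a (by omega), mul_zero]
  · rw [h.rho_deg i a (by omega), zero_mul]

lemma dl_sq (i j : J) : ∑ p, h.dl hd i p * de j p = 0 := by
  calc ∑ p, h.dl hd i p * de j p = ∑ p, ∑ a, om⁻¹ i a * (de j p * de p a) := by
        refine sum_congr rfl fun q _ => ?_
        rw [dl, sum_mul]
        exact sum_congr rfl fun a _ => by ring
    _ = ∑ a, ∑ p, om⁻¹ i a * (de j p * de p a) := sum_comm
    _ = ∑ a, om⁻¹ i a * (de * de) j a := by simp only [← mul_sum, Matrix.mul_apply]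
    _ = 0 := by simp [hd.sq]

/-- `D(e_i, e_p) e_s` for `s` of degree `0` -/
lemma D_up0 {i p s l : J} (hs : deg s = 0) (hl : deg l = 1) :
    D i p s l = ∑ t, (∑ c, om⁻¹ l c * D i p c t) * om t s := by
  rw [← h.Dl_up i p s hl]
  have h1 : ∀ c, om⁻¹ l c * h.Dl i p s c = ∑ t, om⁻¹ l c * D i p c t * om t s := by
    intro c
    rw [h.Dl34 i p s c, hs, kz_zero_left, one_mul, Dl, mul_sum]
    exact sum_congr rfl fun t _ => by ring
  rw [sum_congr rfl fun c _ => h1 c, sum_comm]
  exact sum_congr rfl fun t _ => by rw [sum_mul]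

lemma om_anti0 {p s : J} (hp : deg p = 0) : om p s = -om s p := by
  have := h.om_symm p s
  rwa [hp, kz_zero_left, one_mul] at this

/-- the form `A(l;i,j;p)` -/
lemma dq (i j l p : J) (hi : deg i = 1) (hj : deg j = 1) (hl : deg l = 1) (hp : deg p = 0) :
    ∑ m, de m p * ∑ a, om⁻¹ j a * D i m a l =
      ∑ q, ∑ r, h.dl hd l q * h.E i j q r * om r p - ∑ q, ∑ r, h.dl hd j q * h.E i l q r * om r p +
        (if i = l then de j p else 0) - (if i = j then de l p else 0) := by
  -- the derivation identity, contracted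
  have h1 : ∀ c, ∑ s, de l s * D i p c s = -∑ s, D i s c l * de s p - ∑ s, D i p s l * de s c := by
    intro c
    have h2 := hd.D_d i p c l
    have h3 : ∑ s, D s p c l * de s i = 0 := sum_eq_zero fun s _ => by
      rw [hd.deg_one s i (by have := h.deg_le s; omega), mul_zero]
    rw [h3, hi, hp, add_zero, kz_pp] at h2
    linear_combination h2
  have h2 : ∑ s, de l s * ∑ c, om⁻¹ j c * D i p c s =
      -(∑ m, de m p * ∑ a, om⁻¹ j a * D i m a l) - ∑ s, D i p s l * h.dl hd j s := by
    calc ∑ s, de l s * ∑ c, om⁻¹ j c * D i p c s = ∑ s, ∑ c, om⁻¹ j c * (de l s * D i p c s) := by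
          refine sum_congr rfl fun s _ => ?_
          rw [mul_sum]
          exact sum_congr rfl fun c _ => by ring
      _ = ∑ c, ∑ s, om⁻¹ j c * (de l s * D i p c s) := sum_comm
      _ = ∑ c, om⁻¹ j c * (-∑ s, D i s c l * de s p - ∑ s, D i p s l * de s c) := by
          simp only [← mul_sum, h1]
      _ = -(∑ c, ∑ s, om⁻¹ j c * (D i s c l * de s p)) -
            ∑ c, ∑ s, om⁻¹ j c * (D i p s l * de s c) := by
          simp only [mul_sub, mul_neg, sum_sub_distrib, sum_neg_distrib, mul_sum]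
      _ = _ := by
          congr 1
          · congr 1
            rw [sum_comm]
            refine sum_congr rfl fun s _ => ?_
            rw [mul_sum]
            exact sum_congr rfl fun c _ => by ring
          · rw [sum_comm]
            refine sum_congr rfl fun s _ => ?_
            rw [dl, mul_sum]
            exact sum_congr rfl fun c _ => by ring
  -- left side
  have h3 : ∑ s, de l s * ∑ c, om⁻¹ j c * D i p c s = (if i = j then de l p else 0) -
      ∑ q, ∑ r, h.dl hd l q * h.E i j q r * om r p := by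
    have h4 : ∀ s, de l s * ∑ c, om⁻¹ j c * D i p c s =
        (if p = s then (if i = j then de l s else 0) else 0) + de l s * h.E i j p s := by
      intro s
      rw [h.R_eq s hi hj hp, E_apply]
      split_ifs <;> ring
    have h5 : ∑ s, de l s * h.E i j p s = -∑ q, ∑ r, h.dl hd l q * h.E i j q r * om r p := by
      calc ∑ s, de l s * h.E i j p s = ∑ s, ∑ q, h.dl hd l q * (om q s * h.E i j p s) := by
            refine sum_congr rfl fun s _ => ?_
            rw [← h.dl_om hd hl s, sum_mul]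
            exact sum_congr rfl fun c _ => by ring
        _ = ∑ q, h.dl hd l q * ∑ s, om q s * h.E i j p s := by
            rw [sum_comm]
            exact sum_congr rfl fun q _ => by rw [mul_sum]
        _ = ∑ q, h.dl hd l q * -∑ m, h.E i j q m * om m p := by
            refine sum_congr rfl fun q _ => ?_
            congr 1
            linear_combination h.E_skew hi hj q p
        _ = _ := by
            rw [← sum_neg_distrib]
            refine sum_congr rfl fun q _ => ?_
            rw [mul_neg, mul_sum]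
            congr 1
            exact sum_congr rfl fun m _ => by ring
    rw [sum_congr rfl fun s _ => h4 s, sum_add_distrib, h5]
    simp [sub_eq_add_neg]
  -- right side
  have h6 : ∑ s, D i p s l * h.dl hd j s = -(if i = l then de j p else 0) +
      ∑ q, ∑ r, h.dl hd j q * h.E i l q r * om r p := by
    have h7 : ∀ s, D i p s l * h.dl hd j s = (if i = l then -(h.dl hd j s * om s p) else 0) +
        ∑ r, h.dl hd j s * h.E i l s r * om r p := by
      intro s
      by_cases hs : deg s = 0
      · rw [h.D_up0 hd hs hl]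
        have h8 : ∀ t, (∑ c, om⁻¹ l c * D i p c t) * om t s =
            (if p = t then (if i = l then om t s else 0) else 0) + h.E i l p t * om t s := by
          intro t
          rw [h.R_eq t hi hl hp, E_apply]
          split_ifs <;> ring
        have h9 : ∑ m, om p m * h.E i l s m = -∑ m, h.E i l s m * om m p := by
          rw [← sum_neg_distrib]
          refine sum_congr rfl fun m _ => ?_
          rw [h.om_anti0 hd (p := p) (s := m) hp]; ring
        have h10 : ∑ t, h.E i l p t * om t s = ∑ m, h.E i l s m * om m p := by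
          linear_combination h.E_skew hi hl p s - h9
        rw [sum_congr rfl fun t _ => h8 t, sum_add_distrib, h10, add_mul]
        congr 1
        · rw [sum_ite_eq]
          rw [if_pos (mem_univ _), h.om_anti0 hd (p := p) (s := s) hp]
          split_ifs <;> ring
        · rw [sum_mul]
          exact sum_congr rfl fun m _ => by ring
      · rw [h.dl_deg hd hj hs]; simp
    rw [sum_congr rfl fun s _ => h7 s, sum_add_distrib]
    congr 1
    by_cases hil : i = l
    · simp only [hil, if_true, sum_neg_distrib, h.dl_om hd hj]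
    · simp [hil]
  rw [h3, h6] at h2
  linear_combination h2

/-- `∑ c, ρ j c ω(D(e_t,e_c)e_v, e_u)` -/
noncomputable def Y (_ : SDer deg om D de) (j t v u : J) : k := ∑ c, om⁻¹ j c * h.Dl t c v u

omit hd in
lemma Y_eq (hd : SDer deg om D de) (j t v u : J) : h.Y hd j t v u = ∑ r, h.E t j v r * om r u := by
  calc h.Y hd j t v u = ∑ c, ∑ r, om⁻¹ j c * D t c v r * om r u := by
        refine sum_congr rfl fun c _ => ?_
        rw [Dl, mul_sum]
        exact sum_congr rfl fun r _ => by ring
    _ = ∑ r, ∑ c, om⁻¹ j c * D t c v r * om r u := sum_comm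
    _ = _ := by
        refine sum_congr rfl fun r _ => ?_
        rw [E_apply, sum_mul]

lemma Y_symm (j t : J) {v u : J} (hv : deg v = 0) : h.Y hd j t v u = h.Y hd j t u v := by
  refine sum_congr rfl fun c _ => ?_
  rw [h.Dl34 t c v u, hv, kz_zero_left, one_mul]

lemma dq2 {j u v w : J} (hj : deg j = 1) (hu : deg u = 0) (hv : deg v = 0) (hw : deg w = 0) :
    ∑ q, h.dl hd j q * (h.Dl q u v w - om u v * om q w - om u w * om q v) +
      (∑ m, de m u * h.Y hd j m v w + ∑ m, de m v * h.Y hd j m w u +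
        ∑ m, de m w * h.Y hd j m u v) = 0 := by
  have hb : ∀ c, deg c = -1 → ∑ t, h.Dl c u v t * de t w = ∑ s, h.Dl s u v w * de s c -
      ∑ s, h.Dl c s v w * de s u - ∑ s, h.Dl c u s w * de s v := by
    intro c hc
    have h1 : ∀ s', ∑ s, de s' s * D c u v s = ∑ s, D s u v s' * de s c -
        ∑ s, D c s v s' * de s u - ∑ s, D c u s s' * de s v := by
      intro s'
      have h2 := hd.D_d c u v s'
      rw [hc, hu, add_zero, kz_mp] at h2
      linear_combination h2
    have h3 : ∑ t, h.Dl c u v t * de t w = ∑ s', om s' w * ∑ s, de s' s * D c u v s := by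
      calc ∑ t, h.Dl c u v t * de t w = ∑ t, ∑ s, D c u v s * (om s t * de t w) := by
            refine sum_congr rfl fun t _ => ?_
            rw [Dl, sum_mul]
            exact sum_congr rfl fun s _ => by ring
        _ = ∑ s, ∑ t, D c u v s * (om s t * de t w) := sum_comm
        _ = ∑ s, ∑ s', D c u v s * (om s' w * de s' s) := by
            refine sum_congr rfl fun s _ => ?_
            rw [← mul_sum, ← mul_sum]
            by_cases hs : deg s = -1
            · rw [h.de_om hd hs w]
            · rw [h.D_deg c u v s (by omega)]; simp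
        _ = ∑ s', ∑ s, D c u v s * (om s' w * de s' s) := sum_comm
        _ = _ := by
            refine sum_congr rfl fun s' _ => ?_
            rw [mul_sum]
            exact sum_congr rfl fun s _ => by ring
    have h4 : ∀ (F : J → J → k) (x : J), ∑ s', om s' w * ∑ s, F s s' * de s x =
        ∑ s, (∑ s', F s s' * om s' w) * de s x := by
      intro F x
      simp only [mul_sum, sum_mul]
      rw [sum_comm]
      exact sum_congr rfl fun _ _ => sum_congr rfl fun _ _ => by ring
    rw [h3]
    simp only [h1, mul_sub, sum_sub_distrib]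
    rw [h4 (fun s s' => D s u v s'), h4 (fun s s' => D c s v s'), h4 (fun s s' => D c u s s')]
    rfl
  have hc' : ∀ c, deg c = -1 → ∑ t, (-(h.Dl t c v u * de t w) + om u v * (om c t * de t w)) =
      ∑ s, h.Dl s u v w * de s c + ∑ s, h.Dl s c v w * de s u +
        ∑ s, (h.Dl s c u w * de s v - om u w * (om c s * de s v)) := by
    intro c hc
    have e1 : ∀ t, -(h.Dl t c v u * de t w) + om u v * (om c t * de t w) = h.Dl c u v t * de t w := by
      intro t
      by_cases ht : deg t = 1
      · have f1 := h.Dl12 c u v t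
        have f2 := h.Dl23 u c v t
        have f3 := h.Dl34 u v c t
        have f4 := h.Dl_pair (m := u) (b := v) (l := t) (a := c) (by omega) ht hc
        have f5 := h.Dl34 t c u v
        have o1 : om c v = 0 := h.om_deg _ _ (by omega)
        have o2 : om u c = 0 := h.om_deg _ _ (by omega)
        rw [hc, hu, kz_zero_right, one_mul] at f1
        rw [hc, hv, kz_zero_right, one_mul, o1, o2] at f2
        rw [hc, ht, kz_mp] at f3
        rw [hu, kz_zero_left, one_mul] at f5
        rw [f1, f2, f3, f4, f5]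
        ring
      · rw [hd.deg_one t w (by omega)]; ring
    have e2 : ∀ s, -(h.Dl c s v w * de s u) = h.Dl s c v w * de s u := by
      intro s
      by_cases hs : deg s = 1
      · rw [h.Dl12 c s v w, hc, hs, kz_mp]; ring
      · rw [hd.deg_one s u (by omega)]; ring
    have e3 : ∀ s, -(h.Dl c u s w * de s v) = h.Dl s c u w * de s v - om u w * (om c s * de s v) := by
      intro s
      by_cases hs : deg s = 1
      · have f1 := h.Dl23 c u s w
        have f2 := h.Dl12 c s u w
        have o1 : om u s = 0 := h.om_deg _ _ (by omega)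
        have o2 : om c u = 0 := h.om_deg _ _ (by omega)
        rw [hu, kz_zero_left, one_mul, one_mul, o1, o2] at f1
        rw [hc, hs, kz_mp] at f2
        rw [f1, f2]
        ring
      · rw [hd.deg_one s v (by omega)]; ring
    have := hb c hc
    rw [← sum_congr rfl fun t _ => e1 t] at this
    rw [this, ← sum_congr rfl fun s _ => e2 s, ← sum_congr rfl fun s _ => e3 s, sum_neg_distrib,
      sum_neg_distrib]
    ring
  have hs := h.sum_rho hj hc'
  have g1 : ∀ (F : J → J → k) (x : J), ∑ c, om⁻¹ j c * ∑ s, F s c * de s x =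
      ∑ s, de s x * ∑ c, om⁻¹ j c * F s c := by
    intro F x
    simp only [mul_sum]
    rw [sum_comm]
    exact sum_congr rfl fun _ _ => sum_congr rfl fun _ _ => by ring
  have g2 : ∑ c, om⁻¹ j c * ∑ s, h.Dl s u v w * de s c = ∑ s, h.dl hd j s * h.Dl s u v w := by
    simp only [mul_sum, dl, sum_mul]
    rw [sum_comm]
    exact sum_congr rfl fun _ _ => sum_congr rfl fun _ _ => by ring
  have g3 : ∀ (a x : J) (y : J), ∑ c, om⁻¹ j c * ∑ s, om a x * (om c s * de s y) = om a x * de j y := by
    intro a x y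
    rw [← h.rho_om_de hd j y]
    simp only [mul_sum]
    exact sum_congr rfl fun _ _ => sum_congr rfl fun _ _ => by ring
  simp only [sum_add_distrib, sum_sub_distrib, sum_neg_distrib, mul_add, mul_sub, mul_neg] at hs
  rw [g1 (fun s c => h.Dl s c v u), g3 u v w, g2, g1 (fun s c => h.Dl s c v w),
    g1 (fun s c => h.Dl s c u w), g3 u w v] at hs
  have g4 : ∑ q, h.dl hd j q * (h.Dl q u v w - om u v * om q w - om u w * om q v) =
      ∑ q, h.dl hd j q * h.Dl q u v w - om u v * de j w - om u w * de j v := by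
    rw [← h.dl_om hd hj w, ← h.dl_om hd hj v, mul_sum, mul_sum, ← sum_sub_distrib,
      ← sum_sub_distrib]
    exact sum_congr rfl fun q _ => by ring
  rw [g4]
  have g5 : ∀ m, h.Y hd j m w u = h.Y hd j m u w := fun m => h.Y_symm hd j m hw
  have g6 : ∀ m, h.Y hd j m u v = h.Y hd j m v u := fun m => h.Y_symm hd j m hu
  simp only [g5, g6]
  simp only [Y]
  linear_combination -hs

end Sfts

end LicciCore

end

section

/-!
# The closed fibre in index form gives a closed fibre package, II: there is no closed fibre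
-/

set_option autoImplicit false
set_option linter.unusedSectionVars false

open Finset Matrix LicciCx Module

namespace LicciCore

namespace Sfts

variable {k : Type*} [Field k] [CharZero k] {J : Type} [Fintype J] [DecidableEq J] {deg : J → ℤ}
  {om : Matrix J J k} {D : J → J → J → J → k}

/-- the array of components -/
noncomputable def arr (h : Sfts deg om D) :
    LicciCF.Arr k {j // deg j = 1} {j // deg j = 0} where
  om p q := om p q
  sg i j p q := h.E i j p q
  S i j l m := ∑ a, om⁻¹ (l : J) a * D i j a m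
  q0 s u v w := h.Dl s u v w - om u v * om s w - om u w * om s v

variable (h : Sfts deg om D)
include h

lemma arr_Rr (i j : {j // deg j = 1}) (p q : {j // deg j = 0}) :
    h.arr.Rr i j p q = ∑ a, om⁻¹ (j : J) a * D i p a q := by
  rw [h.R_eq q i.2 j.2 p.2, LicciCF.Arr.Rr]
  simp only [← Subtype.ext_iff]
  rfl

lemma arr_Tt (i j l m : {j // deg j = 1}) : h.arr.Tt i j l m = h.E i j l m := by
  rw [h.E_apply, h.T_eq m i.2 j.2 l.2, LicciCF.Arr.Tt]
  simp only [← Subtype.ext_iff]
  rfl

theorem isPkg : h.arr.IsPkg where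
  alt p := by
    have h1 := h.om_symm p p
    rw [p.2, kz_zero_left, one_mul] at h1
    have h2 : (2 : k) * om p p = 0 := by linear_combination h1
    exact (mul_eq_zero.1 h2).resolve_left two_ne_zero
  anti p q := by
    have h1 := h.om_symm p q
    rw [p.2, kz_zero_left, one_mul] at h1
    exact h1
  nondeg u hu := by
    have h1 : ∀ q : J, ∑ p : {j // deg j = 0}, u p * om p q = 0 := by
      intro q
      by_cases hq : deg q = 0
      · exact hu ⟨q, hq⟩
      · refine sum_eq_zero fun p _ => ?_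
        rw [h.om_deg p q (by rw [p.2]; omega), mul_zero]
    ext p'
    calc u p' = ∑ p : {j // deg j = 0}, u p * (if (p : J) = p' then 1 else 0) := by
          simp [← Subtype.ext_iff]
      _ = ∑ p : {j // deg j = 0}, ∑ q : J, u p * om p q * om⁻¹ q p' := by
          refine sum_congr rfl fun p _ => ?_
          rw [← h.om_rho p p', mul_sum]
          exact sum_congr rfl fun q _ => by ring
      _ = ∑ q : J, (∑ p : {j // deg j = 0}, u p * om p q) * om⁻¹ q p' := by
          rw [sum_comm]
          exact sum_congr rfl fun q _ => by rw [sum_mul]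
      _ = 0 := by simp [h1]
  sp i j p q := by
    have h1 := h.E_skew i.2 j.2 p q
    have h2 : ∑ m, h.E i j p m * om m q = ∑ m : {j // deg j = 0}, h.E i j p m * om m q :=
      sum_deg 0 _ (fun m hm => by rw [h.om_deg m q (by rw [q.2]; omega), mul_zero])
    have h3 : ∑ m, om p m * h.E i j q m = ∑ m : {j // deg j = 0}, om p m * h.E i j q m :=
      sum_deg 0 _ (fun m hm => by rw [h.om_deg p m (by rw [p.2]; omega), zero_mul])
    rw [h2, h3] at h1
    rw [← h1]
    congr 1
    exact sum_congr rfl fun m _ => mul_comm _ _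
  S_alt i l m := by
    refine sum_eq_zero fun a _ => ?_
    have h1 := h.D_symm i i a m
    rw [i.2, kz_pp] at h1
    have h2 : (2 : k) * D i i a m = 0 := by linear_combination h1
    rw [(mul_eq_zero.1 h2).resolve_left two_ne_zero, mul_zero]
  S_anti i j l m := by
    change ∑ a, _ = -∑ a, _
    rw [← sum_neg_distrib]
    refine sum_congr rfl fun a _ => ?_
    rw [h.D_symm i j a m, i.2, j.2, kz_pp]; ring
  S_skew i j l m := by
    have h1 := h.U_symm i j l m
    rw [l.2, m.2, kz_pp] at h1
    have h2 : ∀ l m : {j // deg j = 1}, ∑ a, om⁻¹ (l : J) a * D i j a m = ∑ a, om⁻¹ a (l : J) * D i j a m := by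
      intro l m
      refine sum_congr rfl fun a _ => ?_
      by_cases ha : deg a = -1
      · rw [h.rho_symm a l, ha, l.2, kz_mp]; ring
      · rw [h.rho_deg l a (by rw [l.2]; omega), h.rho_deg a l (by rw [l.2]; omega)]
    change ∑ a, _ + ∑ a, _ = 0
    rw [h2, h2, h1]; ring
  dim := h.dim
  d1 i j p q := by
    have h1 := h.d1 (i := i) (j := j) (p := p) q i.2 p.2
    simp only [arr_Rr]
    linear_combination (1 / 2 : k) * h1
  d2 i j l m := h.d2 l m i.2 j.2
  d0 i j i' j' := by
    have h1 := h.d0 i.2 j.2 i'.2 j'.2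
    simp only [arr_Tt]
    have h2 : ∑ l : {j // deg j = 1}, ∑ m : {j // deg j = 1}, h.E i' j' l m * h.E i j m l =
        ∑ a : {j // deg j = 1}, ∑ m : {j // deg j = 1}, h.E i j a m * h.E i' j' m a := by
      rw [sum_comm]
      exact sum_congr rfl fun a _ => sum_congr rfl fun m _ => mul_comm _ _
    have h3 : ∑ p : {j // deg j = 0}, ∑ q : {j // deg j = 0}, h.arr.sg i' j' p q * h.arr.sg i j q p =
        ∑ a : {j // deg j = 0}, ∑ m : {j // deg j = 0}, h.E i j a m * h.E i' j' m a := by
      rw [sum_comm]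
      exact sum_congr rfl fun a _ => sum_congr rfl fun m _ => mul_comm _ _
    rw [h2, h3]
    linear_combination (1 / 2 : k) * h1

section der

variable {de : Matrix J J k} (hd : SDer deg om D de)
include hd

theorem isDer : h.arr.IsDer (fun i p => h.dl hd i p) (fun p i => de i p) where
  adj i p := by
    rw [← h.dl_om hd i.2 p]
    exact sum_deg 0 _ (fun q hq => by rw [h.dl_deg hd i.2 hq, zero_mul])
  sq i j := by
    have h1 := sum_deg (deg := deg) 0 (fun p => h.dl hd i p * de j p)
      (fun q hq => by rw [h.dl_deg hd i.2 hq, zero_mul])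
    rw [h.dl_sq hd i j] at h1
    exact h1.symm
  dq i j l p := by
    have h1 := h.dq hd i j l p i.2 j.2 l.2 p.2
    have h2 : ∑ m, de m p * ∑ a, om⁻¹ (j : J) a * D i m a l =
        ∑ m : {j // deg j = 1}, de m p * ∑ a, om⁻¹ (j : J) a * D i m a l :=
      sum_deg 1 _ (fun m hm => by rw [hd.deg_one m p (by rw [p.2]; omega), zero_mul])
    have h3 : ∀ j l : {j // deg j = 1}, ∑ q, ∑ r, h.dl hd l q * h.E i j q r * om r p =
        ∑ q : {j // deg j = 0}, ∑ r : {j // deg j = 0}, h.dl hd l q * h.E i j q r * om r p := by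
      intro j l
      rw [sum_deg 0 _ (fun q hq => sum_eq_zero fun r _ => by rw [h.dl_deg hd l.2 hq]; ring)]
      refine sum_congr rfl fun q _ => ?_
      exact sum_deg 0 _ (fun r hr => by rw [h.om_deg r p (by rw [p.2]; omega), mul_zero])
    rw [h2, h3, h3] at h1
    simp only [← Subtype.ext_iff] at h1
    exact h1
  dq2 j u v w := by
    have h1 := h.dq2 hd j.2 u.2 v.2 w.2
    have h2 : ∑ q, h.dl hd j q * (h.Dl q u v w - om u v * om q w - om u w * om q v) =
        ∑ q : {j // deg j = 0}, h.dl hd j q * (h.Dl q u v w - om u v * om q w - om u w * om q v) :=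
      sum_deg 0 _ (fun q hq => by rw [h.dl_deg hd j.2 hq, zero_mul])
    have h3 : ∀ u v w : {j // deg j = 0}, ∑ m, de m u * h.Y hd j m v w =
        ∑ m : {j // deg j = 1}, ∑ r : {j // deg j = 0}, de m u * h.E m j v r * om r w := by
      intro u v w
      rw [sum_deg (deg := deg) 1 (fun m => de m u * h.Y hd j m v w)
        (fun m hm => by rw [hd.deg_one m u (by rw [u.2]; omega), zero_mul])]
      refine sum_congr rfl fun m _ => ?_
      rw [h.Y_eq hd, mul_sum]
      rw [sum_deg (deg := deg) 0 (fun r => de m u * (h.E m j v r * om r w))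
        (fun r hr => by rw [h.om_deg r w (by rw [w.2]; omega), mul_zero, mul_zero])]
      exact sum_congr rfl fun r _ => by ring
    rw [h2, h3, h3, h3] at h1
    exact h1

lemma exists_dl : ∃ (i : {j // deg j = 1}) (p : {j // deg j = 0}), h.dl hd i p ≠ 0 := by
  by_contra hcon
  push Not at hcon
  have h1 : ∀ i, deg i = 1 → ∀ p, h.dl hd i p = 0 := by
    intro i hi p
    by_cases hp : deg p = 0
    · exact hcon ⟨i, hi⟩ ⟨p, hp⟩
    · exact h.dl_deg hd hi hp
  apply hd.ne
  ext a b
  rw [Matrix.zero_apply]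
  rcases h.cases3 b with hb | hb | hb
  · -- `b` of degree `-1`
    have h2 : de a b = ∑ i, om b i * h.dl hd i a := by
      symm
      calc ∑ i, om b i * h.dl hd i a = ∑ i, ∑ c, om b i * om⁻¹ i c * de a c := by
            refine sum_congr rfl fun i _ => ?_
            rw [dl, mul_sum]
            exact sum_congr rfl fun c _ => by ring
        _ = ∑ c, ∑ i, om b i * om⁻¹ i c * de a c := sum_comm
        _ = ∑ c, (if b = c then 1 else 0) * de a c := by simp only [← sum_mul, h.om_rho]
        _ = _ := by simp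
    rw [h2]
    refine sum_eq_zero fun i _ => ?_
    by_cases hi : deg i = 1
    · rw [h1 i hi a, mul_zero]
    · rw [h.om_deg b i (by omega), zero_mul]
  · by_cases ha : deg a = 1
    · rw [← h.dl_om hd ha b]
      exact sum_eq_zero fun q _ => by rw [h1 a ha q, zero_mul]
    · exact hd.deg_one a b (by omega)
  · exact hd.deg_one a b (by have := h.deg_le a; omega)

end der

section eps

omit h [CharZero k] [Fintype J] [DecidableEq J] in
/-- extension by zero -/
def xt (n : ℤ) (x : {j // deg j = n} → k) : J → k := fun j => if hj : deg j = n then x ⟨j, hj⟩ else 0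

omit h [CharZero k] [Fintype J] [DecidableEq J] in
lemma xt_coe (n : ℤ) (x : {j // deg j = n} → k) (i : {j // deg j = n}) : xt n x i = x i := by
  rw [xt, dif_pos i.2]

omit h [CharZero k] [Fintype J] [DecidableEq J] in
lemma xt_ne (n : ℤ) (x : {j // deg j = n} → k) {j : J} (hj : deg j ≠ n) : xt n x j = 0 := by
  rw [xt, dif_neg hj]

omit h [CharZero k] [Fintype J] [DecidableEq J] in
lemma xt_res (n : ℤ) (x : J → k) (hx : ∀ j, deg j ≠ n → x j = 0) :
    xt n (fun i : {j // deg j = n} => x i) = x := by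
  ext j
  by_cases hj : deg j = n
  · rw [xt, dif_pos hj]
  · rw [xt_ne n _ hj, hx j hj]

/-- the element of `X_{-1}` of a linear form on `X_1` -/
noncomputable def up (_ : Sfts deg om D) (ξ : Dual k ({j // deg j = 1} → k)) : J → k :=
  fun a => ∑ l : {j // deg j = 1}, ξ (Pi.single l 1) * om⁻¹ (l : J) a

lemma S_app (x y : {j // deg j = 1} → k) (ξ : Dual k ({j // deg j = 1} → k)) (m : {j // deg j = 1}) :
    h.arr.toDat.S x y ξ m = app3 D (xt 1 x) (xt 1 y) (h.up ξ) m := by
  rw [LicciCF.Arr.toDat_S, app3]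
  rw [sum_deg 1 _ (fun i hi => sum_eq_zero fun j _ => sum_eq_zero fun l _ => by
    rw [xt_ne 1 x hi]; ring)]
  calc ∑ l, (∑ i, ∑ j, x i * y j * h.arr.S i j l m) * ξ (Pi.single l 1)
      = ∑ l, ∑ i, ∑ j, x i * y j * h.arr.S i j l m * ξ (Pi.single l 1) := by
        simp only [sum_mul]
    _ = ∑ i, ∑ l, ∑ j, x i * y j * h.arr.S i j l m * ξ (Pi.single l 1) := sum_comm
    _ = ∑ i, ∑ j, ∑ l, x i * y j * h.arr.S i j l m * ξ (Pi.single l 1) :=
        sum_congr rfl fun i _ => sum_comm
    _ = _ := by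
        refine sum_congr rfl fun i _ => ?_
        rw [sum_deg 1 (fun j => ∑ l, xt 1 x i * xt 1 y j * h.up ξ l * D i j l m)
          (fun j hj => sum_eq_zero fun l _ => by rw [xt_ne 1 y hj]; ring)]
        refine sum_congr rfl fun j _ => ?_
        rw [xt_coe, xt_coe]
        calc ∑ l, x i * y j * h.arr.S i j l m * ξ (Pi.single l 1)
            = ∑ l : {j // deg j = 1}, ∑ a, x i * y j * (ξ (Pi.single l 1) * om⁻¹ (l : J) a) *
                D i j a m := by
              refine sum_congr rfl fun l _ => ?_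
              change x i * y j * (∑ a, om⁻¹ (l : J) a * D i j a m) * ξ (Pi.single l 1) = _
              rw [mul_sum, sum_mul]
              exact sum_congr rfl fun a _ => by ring
          _ = ∑ a, ∑ l : {j // deg j = 1}, x i * y j * (ξ (Pi.single l 1) * om⁻¹ (l : J) a) *
                D i j a m := sum_comm
          _ = _ := by
              refine sum_congr rfl fun a _ => ?_
              rw [up, mul_sum, sum_mul]

omit h [CharZero k] [Fintype J] in
lemma dual_apply [Fintype {j // deg j = 1}] (ξ : Dual k ({j // deg j = 1} → k))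
    (x : {j // deg j = 1} → k) : ξ x = ∑ i, x i * ξ (Pi.single i 1) := by
  have hx : x = ∑ i, x i • (Pi.single i 1 : {j // deg j = 1} → k) := by
    ext j
    simp [Finset.sum_apply, Pi.single_apply]
  conv_lhs => rw [hx]
  simp only [map_sum, map_smul, smul_eq_mul]

lemma R_app (x : {j // deg j = 1} → k) (ξ : Dual k ({j // deg j = 1} → k))
    (u : {j // deg j = 0} → k) (q : {j // deg j = 0}) :
    h.arr.toDat.R x ξ u q = app3 D (xt 1 x) (xt 0 u) (h.up ξ) q := by
  have h1 : h.arr.toDat.R x ξ u q = ∑ i, ∑ p, ∑ j, x i * u p * ξ (Pi.single j 1) *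
      h.arr.Rr i j p q := by
    rw [LicciCF.Dat.R, LinearMap.add_apply, LinearMap.smul_apply, LinearMap.id_apply, Pi.add_apply,
      Pi.smul_apply, LicciCF.Arr.toDat_σ, dual_apply ξ x, smul_eq_mul]
    simp only [LicciCF.Arr.Rr, mul_add, sum_add_distrib]
    congr 1
    · rw [sum_mul]
      refine sum_congr rfl fun i _ => ?_
      rw [sum_comm]
      simp
      ring
    · calc ∑ p, (∑ i, ∑ j, x i * ξ (Pi.single j 1) * h.arr.sg i j p q) * u p
          = ∑ p, ∑ i, ∑ j, x i * u p * ξ (Pi.single j 1) * h.arr.sg i j p q := by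
            refine sum_congr rfl fun p _ => ?_
            rw [sum_mul]
            refine sum_congr rfl fun i _ => ?_
            rw [sum_mul]
            exact sum_congr rfl fun j _ => by ring
        _ = _ := sum_comm
  rw [h1, app3]
  rw [sum_deg 1 (fun i => ∑ j, ∑ l, xt 1 x i * xt 0 u j * h.up ξ l * D i j l q)
    (fun i hi => sum_eq_zero fun j _ => sum_eq_zero fun l _ => by rw [xt_ne 1 x hi]; ring)]
  refine sum_congr rfl fun i _ => ?_
  rw [sum_deg 0 (fun j => ∑ l, xt 1 x i * xt 0 u j * h.up ξ l * D i j l q)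
    (fun j hj => sum_eq_zero fun l _ => by rw [xt_ne 0 u hj]; ring)]
  refine sum_congr rfl fun p _ => ?_
  rw [xt_coe, xt_coe]
  calc ∑ j, x i * u p * ξ (Pi.single j 1) * h.arr.Rr i j p q
      = ∑ l : {j // deg j = 1}, ∑ a, x i * u p * (ξ (Pi.single l 1) * om⁻¹ (l : J) a) *
          D i p a q := by
        refine sum_congr rfl fun l _ => ?_
        rw [arr_Rr, mul_sum]
        exact sum_congr rfl fun a _ => by ring
    _ = ∑ a, ∑ l : {j // deg j = 1}, x i * u p * (ξ (Pi.single l 1) * om⁻¹ (l : J) a) *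
          D i p a q := sum_comm
    _ = _ := by
        refine sum_congr rfl fun a _ => ?_
        rw [up, mul_sum, sum_mul]

theorem isEps {ε : J → k} (he : SEps deg D ε) : h.arr.toDat.IsEps (fun i => ε i) where
  ne h0 := by
    apply he.ne
    ext j
    by_cases hj : deg j = 1
    · exact congrFun h0 ⟨j, hj⟩
    · exact he.deg_one j hj
  e1 x hx := by
    have hε := xt_res 1 ε he.deg_one
    have hG : ∀ b m, ∑ i, ∑ j, ε i * xt 1 x j * D i j b m = 0 := by
      intro b m
      -- contraction with `ρ`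
      have h1 : ∀ l : J, ∑ a, om⁻¹ l a * ∑ i, ∑ j, ε i * xt 1 x j * D i j a m = 0 := by
        intro l
        by_cases hl : deg l = 1
        · by_cases hm : deg m = 1
          · have h2 := congrFun (congrArg (fun f => f (LinearMap.proj ⟨l, hl⟩)) hx) ⟨m, hm⟩
            simp only [LinearMap.zero_apply, Pi.zero_apply] at h2
            rw [S_app, hε] at h2
            have h3 : h.up (LinearMap.proj ⟨l, hl⟩) = fun a => om⁻¹ l a := by
              ext a
              rw [up]
              simp [Pi.single_apply]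
            rw [h3, app3] at h2
            rw [← h2]
            simp only [mul_sum]
            rw [sum_comm]
            refine sum_congr rfl fun i _ => ?_
            rw [sum_comm]
            exact sum_congr rfl fun j _ => sum_congr rfl fun a _ => by ring
          · refine sum_eq_zero fun a _ => ?_
            by_cases ha : deg a = -1
            · rw [sum_eq_zero fun i _ => sum_eq_zero fun j _ => ?_, mul_zero]
              by_cases hi : deg i = 1
              · by_cases hj : deg j = 1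
                · rw [h.D_deg i j a m (by omega), mul_zero]
                · rw [xt_ne 1 x hj]; ring
              · rw [he.deg_one i hi]; ring
            · rw [h.rho_deg l a (by omega), zero_mul]
        · refine sum_eq_zero fun a _ => ?_
          by_cases ha : deg a + deg l = 0
          · rw [sum_eq_zero fun i _ => sum_eq_zero fun j _ => ?_, mul_zero]
            by_cases hi : deg i = 1
            · by_cases hj : deg j = 1
              · rw [h.D_deg i j a m (by have := h.deg_le m; have := h.deg_le l; omega), mul_zero]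
              · rw [xt_ne 1 x hj]; ring
            · rw [he.deg_one i hi]; ring
          · rw [h.rho_deg l a (by omega), zero_mul]
      have h4 : ∑ l, om b l * ∑ a, om⁻¹ l a * ∑ i, ∑ j, ε i * xt 1 x j * D i j a m =
          ∑ i, ∑ j, ε i * xt 1 x j * D i j b m := by
        generalize hF : (fun a => ∑ i, ∑ j, ε i * xt 1 x j * D i j a m) = F
        have hF' : ∀ a, ∑ i, ∑ j, ε i * xt 1 x j * D i j a m = F a := fun a => congrFun hF a
        simp only [hF']
        calc ∑ l, om b l * ∑ a, om⁻¹ l a * F a = ∑ l, ∑ a, om b l * om⁻¹ l a * F a := by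
              simp only [mul_sum, mul_assoc]
          _ = ∑ a, ∑ l, om b l * om⁻¹ l a * F a := sum_comm
          _ = ∑ a, (if b = a then 1 else 0) * F a := by simp only [← sum_mul, h.om_rho]
          _ = _ := by simp
      rw [← h4]
      exact sum_eq_zero fun l _ => by rw [h1 l, mul_zero]
    obtain ⟨c, hc⟩ := he.e1 (xt 1 x) (fun j hj => xt_ne 1 x hj) (by
      intro z
      ext m
      rw [app3, Pi.zero_apply]
      calc ∑ i, ∑ j, ∑ l, ε i * xt 1 x j * z l * D i j l m
          = ∑ i, ∑ l, ∑ j, ε i * xt 1 x j * z l * D i j l m := sum_congr rfl fun i _ => sum_comm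
        _ = ∑ l, ∑ i, ∑ j, ε i * xt 1 x j * z l * D i j l m := sum_comm
        _ = ∑ l, z l * ∑ i, ∑ j, ε i * xt 1 x j * D i j l m := by
            refine sum_congr rfl fun l _ => ?_
            simp only [mul_sum]
            exact sum_congr rfl fun i _ => sum_congr rfl fun j _ => by ring
        _ = 0 := sum_eq_zero fun l _ => by rw [hG, mul_zero])
    refine ⟨c, ?_⟩
    ext i
    have h1 := congrFun hc i
    rw [xt_coe] at h1
    exact h1
  e2 x y := by
    obtain ⟨w, hw0, hw⟩ := he.e2 (xt 1 x) (xt 1 y) (fun j hj => xt_ne 1 x hj)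
      (fun j hj => xt_ne 1 y hj)
    refine ⟨fun i => w i, ?_⟩
    ext1 ξ
    ext m
    rw [S_app, S_app, xt_res 1 w hw0, xt_res 1 ε he.deg_one, hw]
  e3 x u := by
    obtain ⟨w, hw0, hw⟩ := he.e3 (xt 1 x) (xt 0 u) (fun j hj => xt_ne 1 x hj)
      (fun j hj => xt_ne 0 u hj)
    refine ⟨fun i => w i, fun ξ => ?_⟩
    ext q
    rw [R_app, R_app, xt_res 0 w hw0, xt_res 1 ε he.deg_one, hw]

end eps

end Sfts

theorem sfts_false {k : Type*} [Field k] [CharZero k] {J : Type} [Fintype J] [DecidableEq J]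
    {deg : J → ℤ} {om : Matrix J J k} {D : J → J → J → J → k} {ε : J → k} {de : Matrix J J k}
    (h : Sfts deg om D) (he : SEps deg D ε) (hd : SDer deg om D de) : False := by
  obtain ⟨i, p, hip⟩ := h.exists_dl hd
  exact LicciCF.no_closed_fibre (h.isPkg.toDat) (h.isEps he) ((h.isDer hd).toDat)
    (LicciCF.Arr.toDat_δ_ne (i := i) (p := p) hip)

end LicciCore

end
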